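import Pool.Agent.R928.NK.Min

/-! Averages over pairs of permutations; the interpolation inequality. -/

set_option autoImplicit false
set_option linter.all false

namespace Pool.Agent.R928.NK

open Finset

/-- the average of a function on a finite type -/
noncomputable def avg {α : Type} [Fintype α] (F : α → ℝ) : ℝ := (∑ a, F a) / (Fintype.card α : ℝ)

section
variable {α β : Type} [Fintype α] [Fintype β]

theorem avg_equiv (e : α ≃ β) (F : β → ℝ) : avg (fun a => F (e a)) = avg F := by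
  unfold avg
  rw [Equiv.sum_comp e F, Fintype.card_congr e]

theorem avg_mono {F G : α → ℝ} (h : ∀ a, F a ≤ G a) : avg F ≤ avg G := by
  unfold avg
  exact div_le_div_of_nonneg_right (Finset.sum_le_sum fun a _ => h a) (by positivity)

theorem avg_add (F G : α → ℝ) : avg (fun a => F a + G a) = avg F + avg G := by
  unfold avg
  rw [Finset.sum_add_distrib, add_div]

theorem avg_sub (F G : α → ℝ) : avg (fun a => F a - G a) = avg F - avg G := by
  unfold avg
  rw [Finset.sum_sub_distrib, sub_div]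

theorem avg_const [Nonempty α] (c : ℝ) : avg (fun _ : α => c) = c := by
  unfold avg
  rw [Finset.sum_const, nsmul_eq_mul, Finset.card_univ]
  have : (Fintype.card α : ℝ) ≠ 0 := by exact_mod_cast Fintype.card_ne_zero
  field_simp

theorem avg_mul (c : ℝ) (F : α → ℝ) : avg (fun a => c * F a) = c * avg F := by
  unfold avg
  rw [← Finset.mul_sum, mul_div_assoc]

theorem avg_div (c : ℝ) (F : α → ℝ) : avg (fun a => F a / c) = avg F / c := by
  unfold avg
  rw [← Finset.sum_div, div_right_comm]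

theorem avg_sum {γ : Type} (S : Finset γ) (F : γ → α → ℝ) :
    avg (fun a => ∑ c ∈ S, F c a) = ∑ c ∈ S, avg (F c) := by
  unfold avg
  rw [Finset.sum_comm, Finset.sum_div]

theorem avg_comm (F : α → β → ℝ) : avg (fun a => avg fun b => F a b) = avg fun b => avg fun a => F a b := by
  unfold avg
  rw [← Finset.sum_div, ← Finset.sum_div, Finset.sum_comm, div_right_comm]

theorem avg_prod (F : α × β → ℝ) : avg F = avg fun a => avg fun b => F (a, b) := by
  unfold avg
  rw [← Finset.sum_div, Fintype.sum_prod_type, Fintype.card_prod]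
  push_cast
  rw [div_div, mul_comm]

theorem avg_nonneg {F : α → ℝ} (h : ∀ a, 0 ≤ F a) : 0 ≤ avg F := by
  unfold avg
  exact div_nonneg (Finset.sum_nonneg fun a _ => h a) (by positivity)

theorem avg_le [Nonempty α] {F : α → ℝ} {c : ℝ} (h : ∀ a, F a ≤ c) : avg F ≤ c := by
  calc avg F ≤ avg (fun _ : α => c) := avg_mono h
    _ = c := avg_const c

end

/-- the penalty of a list of pairs -/
def pen {P : Type} (L : List (P × P)) (x : P → Bool) : ℕ :=
  (L.map fun p => if x p.1 = x p.2 then 2 else 0).sum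

section
variable {P : Type}

theorem pen_nil (x : P → Bool) : pen [] x = 0 := rfl

theorem pen_cons (p : P × P) (L : List (P × P)) (x : P → Bool) :
    pen (p :: L) x = (if x p.1 = x p.2 then 2 else 0) + pen L x := by
  simp [pen]

theorem pen_append (L M : List (P × P)) (x : P → Bool) : pen (L ++ M) x = pen L x + pen M x := by
  simp [pen]

theorem pen_perm {L M : List (P × P)} (h : L.Perm M) (x : P → Bool) : pen L x = pen M x := by
  unfold pen
  exact (h.map _).sum_eq

theorem pen_le (L : List (P × P)) (x : P → Bool) : pen L x ≤ 2 * L.length := by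
  induction L with
  | nil => simp [pen_nil]
  | cons p L ih =>
    rw [pen_cons, List.length_cons]
    split_ifs <;> omega

/-- the elements used by a list of pairs -/
def us (L : List (P × P)) : List P := L.map Prod.fst ++ L.map Prod.snd

theorem mem_us {L : List (P × P)} {p : P × P} (h : p ∈ L) : p.1 ∈ us L ∧ p.2 ∈ us L := by
  unfold us
  constructor
  · exact List.mem_append_left _ (List.mem_map_of_mem h)
  · exact List.mem_append_right _ (List.mem_map_of_mem h)

theorem pen_congr {L : List (P × P)} {x y : P → Bool} (h : ∀ a ∈ us L, x a = y a) : pen L x = pen L y := by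
  unfold pen
  congr 1
  apply List.map_congr_left
  intro p hp
  rw [h _ (mem_us hp).1, h _ (mem_us hp).2]

end

section
variable {A B : Type} [Fintype A] [DecidableEq A] [Fintype B] [DecidableEq B]

/-- the action of a pair of permutations -/
def act (s : Equiv.Perm A × Equiv.Perm B) : A ⊕ B → A ⊕ B := Sum.map s.1 s.2

theorem act_mul (s r : Equiv.Perm A × Equiv.Perm B) (p : A ⊕ B) : act (s * r) p = act s (act r p) := by
  cases p <;> simp [act]

/-- the energy -/
noncomputable def En (E0 : (A ⊕ B → Bool) → ℕ) (L : List ((A ⊕ B) × (A ⊕ B)))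
    (s : Equiv.Perm A × Equiv.Perm B) : (A ⊕ B → Bool) → ℕ := fun x => E0 x + pen L (x ∘ act s)

/-- the mean minimum energy -/
noncomputable def hh (E0 : (A ⊕ B → Bool) → ℕ) (L : List ((A ⊕ B) × (A ⊕ B))) : ℝ :=
  avg fun s : Equiv.Perm A × Equiv.Perm B => (mE (En E0 L s) : ℝ)

variable (E0 : (A ⊕ B → Bool) → ℕ) (L : List ((A ⊕ B) × (A ⊕ B)))

theorem En_cons (p : (A ⊕ B) × (A ⊕ B)) (s : Equiv.Perm A × Equiv.Perm B) :
    En E0 (p :: L) s = addP (En E0 L s) (act s p.1) (act s p.2) := by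
  funext x
  unfold En addP
  rw [pen_cons]
  simp only [Function.comp_apply]
  ring

/-- the mean increment -/
noncomputable def DD (p q : A ⊕ B) : ℝ :=
  avg fun s : Equiv.Perm A × Equiv.Perm B => dl (En E0 L s) (act s p) (act s q)

theorem hh_cons (p q : A ⊕ B) : hh E0 ((p, q) :: L) = hh E0 L + DD E0 L p q := by
  unfold hh DD
  rw [← avg_add]
  congr 1
  funext s
  unfold dl
  rw [En_cons]
  ring

theorem DD_inv (r : Equiv.Perm A × Equiv.Perm B) (hr : ∀ a ∈ us L, act r a = a) (p q : A ⊕ B) :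
    DD E0 L (act r p) (act r q) = DD E0 L p q := by
  unfold DD
  rw [← avg_equiv (Equiv.mulRight r) (fun s : Equiv.Perm A × Equiv.Perm B => dl (En E0 L s) (act s p) (act s q))]
  congr 1
  funext s
  have h1 : En E0 L (Equiv.mulRight r s) = En E0 L s := by
    funext x
    unfold En
    congr 1
    apply pen_congr
    intro a ha
    simp only [Function.comp_apply, Equiv.coe_mulRight, act_mul]
    rw [hr a ha]
  rw [h1]
  simp only [Equiv.coe_mulRight, act_mul]

theorem exists_perm {A : Type} [DecidableEq A] (F : Finset A) {u v u' v' : A} (hu : u ∈ F) (hv : v ∈ F)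
    (hu' : u' ∈ F) (hv' : v' ∈ F) (h : u ≠ v) (h' : u' ≠ v') :
    ∃ r : Equiv.Perm A, r u = u' ∧ r v = v' ∧ ∀ a, a ∉ F → r a = a := by
  have hw : Equiv.swap u u' v ∈ F := by
    rw [Equiv.swap_apply_def]
    split_ifs <;> assumption
  have hw' : u' ≠ Equiv.swap u u' v := by
    intro h1
    have : Equiv.swap u u' u = Equiv.swap u u' v := by rw [Equiv.swap_apply_left]; exact h1
    exact h ((Equiv.swap u u').injective this)
  refine ⟨Equiv.swap (Equiv.swap u u' v) v' * Equiv.swap u u', ?_, ?_, ?_⟩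
  · rw [Equiv.Perm.mul_apply, Equiv.swap_apply_left, Equiv.swap_apply_of_ne_of_ne hw' h']
  · rw [Equiv.Perm.mul_apply, Equiv.swap_apply_left]
  · intro a ha
    have h1 : ∀ b ∈ F, a ≠ b := fun b hb hab => ha (hab ▸ hb)
    rw [Equiv.Perm.mul_apply, Equiv.swap_apply_of_ne_of_ne (h1 _ hu) (h1 _ hu'),
      Equiv.swap_apply_of_ne_of_ne (h1 _ hw) (h1 _ hv')]

/-- The interpolation inequality. -/
theorem star (F : Finset A) (G : Finset B) (hF : ∀ a ∈ F, Sum.inl a ∉ us L) (hG : ∀ b ∈ G, Sum.inr b ∉ us L)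
    (hF2 : 2 ≤ F.card) (hG2 : 2 ≤ G.card) {u u1 u2 : A} {v v1 v2 : B} (hu : u ∈ F) (hu1 : u1 ∈ F) (hu2 : u2 ∈ F)
    (hv : v ∈ G) (hv1 : v1 ∈ G) (hv2 : v2 ∈ G) (hu12 : u1 ≠ u2) (hv12 : v1 ≠ v2) :
    2 * hh E0 ((Sum.inl u, Sum.inr v) :: L) ≤ hh E0 ((Sum.inl u1, Sum.inl u2) :: L) +
      hh E0 ((Sum.inr v1, Sum.inr v2) :: L) + 2 / F.card + 2 / G.card := by
  have hF' : (2 : ℝ) ≤ F.card := by exact_mod_cast hF2
  have hG' : (2 : ℝ) ≤ G.card := by exact_mod_cast hG2
  have hfix : ∀ (r1 : Equiv.Perm A) (r2 : Equiv.Perm B), (∀ a, a ∉ F → r1 a = a) → (∀ b, b ∉ G → r2 b = b) →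
      ∀ a ∈ us L, act (r1, r2) a = a := by
    intro r1 r2 h1 h2 a ha
    rcases a with a | b
    · simp only [act, Sum.map_inl]
      rw [h1 a fun h => hF a h ha]
    · simp only [act, Sum.map_inr]
      rw [h2 b fun h => hG b h ha]
  have hAB : ∀ a ∈ F, ∀ b ∈ G, DD E0 L (Sum.inl a) (Sum.inr b) = DD E0 L (Sum.inl u) (Sum.inr v) := by
    intro a ha b hb
    have := DD_inv E0 L (Equiv.swap u a, Equiv.swap v b) (hfix _ _ (fun c hc => Equiv.swap_apply_of_ne_of_ne
      (fun h => hc (h ▸ hu)) (fun h => hc (h ▸ ha))) (fun c hc => Equiv.swap_apply_of_ne_of_ne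
      (fun h => hc (h ▸ hv)) (fun h => hc (h ▸ hb)))) (Sum.inl u) (Sum.inr v)
    simpa only [act, Sum.map_inl, Sum.map_inr, Equiv.swap_apply_left] using this
  have hAA : ∀ a ∈ F, ∀ b ∈ F.erase a, DD E0 L (Sum.inl a) (Sum.inl b) = DD E0 L (Sum.inl u1) (Sum.inl u2) := by
    intro a ha b hb
    rw [Finset.mem_erase] at hb
    obtain ⟨r, hr1, hr2, hr3⟩ := exists_perm F hu1 hu2 ha hb.2 hu12 hb.1.symm
    have := DD_inv E0 L (r, 1) (hfix _ _ hr3 (fun c hc => rfl)) (Sum.inl u1) (Sum.inl u2)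
    simpa only [act, Sum.map_inl, Sum.map_inr, hr1, hr2] using this
  have hBB : ∀ a ∈ G, ∀ b ∈ G.erase a, DD E0 L (Sum.inr a) (Sum.inr b) = DD E0 L (Sum.inr v1) (Sum.inr v2) := by
    intro a ha b hb
    rw [Finset.mem_erase] at hb
    obtain ⟨r, hr1, hr2, hr3⟩ := exists_perm G hv1 hv2 ha hb.2 hv12 hb.1.symm
    have := DD_inv E0 L (1, r) (hfix _ _ (fun c hc => rfl) hr3) (Sum.inr v1) (Sum.inr v2)
    simpa only [act, Sum.map_inl, Sum.map_inr, hr1, hr2] using this
  -- the pointwise inequality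
  have hpt : ∀ s : Equiv.Perm A × Equiv.Perm B,
      2 * ((∑ a ∈ F, ∑ b ∈ G, dl (En E0 L s) (act s (Sum.inl a)) (act s (Sum.inr b))) / (F.card * G.card)) ≤
      (∑ a ∈ F, ∑ b ∈ F.erase a, dl (En E0 L s) (act s (Sum.inl a)) (act s (Sum.inl b))) / (F.card * (F.card - 1)) +
      (∑ a ∈ G, ∑ b ∈ G.erase a, dl (En E0 L s) (act s (Sum.inr a)) (act s (Sum.inr b))) / (G.card * (G.card - 1)) +
      (2 / F.card + 2 / G.card) := by
    intro s
    have h1 : Function.Injective fun a : A => act s (Sum.inl a) := by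
      intro a b hab
      simp only [act, Sum.map_inl, Sum.inl.injEq] at hab
      exact s.1.injective hab
    have h2 : Function.Injective fun b : B => act s (Sum.inr b) := by
      intro a b hab
      simp only [act, Sum.map_inr, Sum.inr.injEq] at hab
      exact s.2.injective hab
    have hb := basic (En E0 L s) (F.map ⟨_, h1⟩) (G.map ⟨_, h2⟩) (by rw [Finset.card_map]; exact hF2)
      (by rw [Finset.card_map]; exact hG2)
    simp only [Finset.card_map, Finset.sum_map, Function.Embedding.coeFn_mk] at hb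
    have e1 : ∀ a, ∑ b ∈ (F.map ⟨fun a : A => act s (Sum.inl a), h1⟩).erase (act s (Sum.inl a)),
        dl (En E0 L s) (act s (Sum.inl a)) b = ∑ b ∈ F.erase a, dl (En E0 L s) (act s (Sum.inl a)) (act s (Sum.inl b)) := by
      intro a
      have : (F.map ⟨fun a : A => act s (Sum.inl a), h1⟩).erase (act s (Sum.inl a)) =
          (F.erase a).map ⟨fun a : A => act s (Sum.inl a), h1⟩ := by
        rw [Finset.map_erase]
        rfl
      rw [this, Finset.sum_map]
      rfl
    have e2 : ∀ a, ∑ b ∈ (G.map ⟨fun a : B => act s (Sum.inr a), h2⟩).erase (act s (Sum.inr a)),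
        dl (En E0 L s) (act s (Sum.inr a)) b = ∑ b ∈ G.erase a, dl (En E0 L s) (act s (Sum.inr a)) (act s (Sum.inr b)) := by
      intro a
      have : (G.map ⟨fun a : B => act s (Sum.inr a), h2⟩).erase (act s (Sum.inr a)) =
          (G.erase a).map ⟨fun a : B => act s (Sum.inr a), h2⟩ := by
        rw [Finset.map_erase]
        rfl
      rw [this, Finset.sum_map]
      rfl
    simp only [e1, e2] at hb
    linarith
  have hav := avg_mono hpt
  rw [avg_mul, avg_div, avg_add, avg_add, avg_div, avg_div, avg_const, avg_sum, avg_sum, avg_sum] at hav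
  simp only [avg_sum] at hav
  have s1 : ∑ a ∈ F, ∑ b ∈ G, avg (fun s => dl (En E0 L s) (act s (Sum.inl a)) (act s (Sum.inr b))) =
      F.card * G.card * DD E0 L (Sum.inl u) (Sum.inr v) := by
    change ∑ a ∈ F, ∑ b ∈ G, DD E0 L (Sum.inl a) (Sum.inr b) = _
    rw [Finset.sum_congr rfl fun a ha => Finset.sum_congr rfl fun b hb => hAB a ha b hb]
    rw [Finset.sum_const, Finset.sum_const, nsmul_eq_mul, nsmul_eq_mul]
    ring
  have s2 : ∑ a ∈ F, ∑ b ∈ F.erase a, avg (fun s => dl (En E0 L s) (act s (Sum.inl a)) (act s (Sum.inl b))) =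
      F.card * (F.card - 1) * DD E0 L (Sum.inl u1) (Sum.inl u2) := by
    change ∑ a ∈ F, ∑ b ∈ F.erase a, DD E0 L (Sum.inl a) (Sum.inl b) = _
    rw [Finset.sum_congr rfl fun a ha => Finset.sum_congr rfl fun b hb => hAA a ha b hb]
    have : ∀ a ∈ F, ∑ b ∈ F.erase a, DD E0 L (Sum.inl u1) (Sum.inl u2) = ((F.card : ℝ) - 1) * DD E0 L (Sum.inl u1) (Sum.inl u2) := by
      intro a ha
      rw [Finset.sum_const, nsmul_eq_mul, Finset.card_erase_of_mem ha, Nat.cast_sub (by omega)]
      push_cast; ring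
    rw [Finset.sum_congr rfl this, Finset.sum_const, nsmul_eq_mul]
    ring
  have s3 : ∑ a ∈ G, ∑ b ∈ G.erase a, avg (fun s => dl (En E0 L s) (act s (Sum.inr a)) (act s (Sum.inr b))) =
      G.card * (G.card - 1) * DD E0 L (Sum.inr v1) (Sum.inr v2) := by
    change ∑ a ∈ G, ∑ b ∈ G.erase a, DD E0 L (Sum.inr a) (Sum.inr b) = _
    rw [Finset.sum_congr rfl fun a ha => Finset.sum_congr rfl fun b hb => hBB a ha b hb]
    have : ∀ a ∈ G, ∑ b ∈ G.erase a, DD E0 L (Sum.inr v1) (Sum.inr v2) = ((G.card : ℝ) - 1) * DD E0 L (Sum.inr v1) (Sum.inr v2) := by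
      intro a ha
      rw [Finset.sum_const, nsmul_eq_mul, Finset.card_erase_of_mem ha, Nat.cast_sub (by omega)]
      push_cast; ring
    rw [Finset.sum_congr rfl this, Finset.sum_const, nsmul_eq_mul]
    ring
  rw [s1, s2, s3] at hav
  have n1 : (F.card : ℝ) ≠ 0 := by positivity
  have n2 : (G.card : ℝ) ≠ 0 := by positivity
  have n3 : (F.card : ℝ) - 1 ≠ 0 := by linarith
  have n4 : (G.card : ℝ) - 1 ≠ 0 := by linarith
  rw [mul_div_cancel_left₀ _ (mul_ne_zero n1 n2), mul_div_cancel_left₀ _ (mul_ne_zero n1 n3),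
    mul_div_cancel_left₀ _ (mul_ne_zero n2 n4)] at hav
  rw [hh_cons, hh_cons, hh_cons]
  linarith

end

end Pool.Agent.R928.NK
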