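import Pool.Agent.R928.NK.Rec

/-! Perfect matchings as equivalences; the averaged inequality. -/

set_option autoImplicit false
set_option linter.all false

namespace Pool.Agent.R928.NK

open Finset

theorem mE_mono {P : Type} {H H' : (P → Bool) → ℕ} (h : ∀ x, H x ≤ H' x) : mE H ≤ mE H' := by
  obtain ⟨x, hx⟩ := exists_mE H'
  rw [← hx]
  exact (mE_le H x).trans (h x)

/-- penalty of a perfect matching given by an equivalence -/
def pe {t : ℕ} {P : Type} (σ : Fin t × Bool → P) (y : P → Bool) : ℕ :=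
  ∑ i : Fin t, if y (σ (i, false)) = y (σ (i, true)) then 2 else 0

section
variable {A : Type} [Fintype A] [DecidableEq A]

theorem us_len {P : Type} (J : List (P × P)) : (us J).length = 2 * J.length := by
  simp [us]; ring

theorem exists_ext (t : ℕ) (hA : Fintype.card A = 2 * t) (J : List (A × A)) (hJ : (us J).Nodup) :
    ∃ σ : Fin t × Bool ≃ A, ∀ y : A → Bool, pen J y ≤ pe σ y := by
  have hlen : J.length ≤ t := by
    have := free_card _ hJ
    rw [us_len] at this
    omega
  have hcard : Fintype.card (Fin t × Bool) = Fintype.card A := by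
    rw [Fintype.card_prod, Fintype.card_fin, Fintype.card_bool, hA]; ring
  rcases isEmpty_or_nonempty A with hE | hN
  · refine ⟨Fintype.equivOfCardEq hcard, fun y => ?_⟩
    have : J = [] := by
      rcases J with _ | ⟨p, J⟩
      · rfl
      · exact (hE.false p.1).elim
    rw [this, pen_nil]
    exact Nat.zero_le _
  · obtain ⟨hn1, hn2, hn3⟩ := List.nodup_append.mp hJ
    let f : Fin t × Bool → A := fun p =>
      if h : (p.1 : ℕ) < J.length then (if p.2 then (J[(p.1 : ℕ)]'h).2 else (J[(p.1 : ℕ)]'h).1) else Classical.arbitrary A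
    let s : Finset (Fin t × Bool) := Finset.univ.filter fun p => (p.1 : ℕ) < J.length
    have hfalse : ∀ (i : Fin t) (h : (i : ℕ) < J.length), f (i, false) = (J[(i : ℕ)]'h).1 := by
      intro i h; simp [f, h]
    have htrue : ∀ (i : Fin t) (h : (i : ℕ) < J.length), f (i, true) = (J[(i : ℕ)]'h).2 := by
      intro i h; simp [f, h]
    have hinj : Set.InjOn f s := by
      rintro ⟨i, b⟩ hi ⟨j, c⟩ hj hij
      have hi' : (i : ℕ) < J.length := by simpa [s] using hi
      have hj' : (j : ℕ) < J.length := by simpa [s] using hj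
      have hi1 : (i : ℕ) < (J.map Prod.fst).length := by simpa using hi'
      have hj1 : (j : ℕ) < (J.map Prod.fst).length := by simpa using hj'
      have hi2 : (i : ℕ) < (J.map Prod.snd).length := by simpa using hi'
      have hj2 : (j : ℕ) < (J.map Prod.snd).length := by simpa using hj'
      rcases b with _ | _ <;> rcases c with _ | _
      · rw [hfalse i hi', hfalse j hj'] at hij
        have : (J.map Prod.fst)[(i : ℕ)] = (J.map Prod.fst)[(j : ℕ)] := by simpa using hij
        rw [hn1.getElem_inj_iff] at this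
        rw [Fin.ext this]
      · rw [hfalse i hi', htrue j hj'] at hij
        exact (hn3 _ (List.mem_map_of_mem (List.getElem_mem hi')) _ (List.mem_map_of_mem (List.getElem_mem hj')) hij).elim
      · rw [htrue i hi', hfalse j hj'] at hij
        exact (hn3 _ (List.mem_map_of_mem (List.getElem_mem hj')) _ (List.mem_map_of_mem (List.getElem_mem hi')) hij.symm).elim
      · rw [htrue i hi', htrue j hj'] at hij
        have : (J.map Prod.snd)[(i : ℕ)] = (J.map Prod.snd)[(j : ℕ)] := by simpa using hij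
        rw [hn2.getElem_inj_iff] at this
        rw [Fin.ext this]
    obtain ⟨g, hg⟩ := Finset.exists_equiv_extend_of_card_eq (t := (Finset.univ : Finset A))
      (by rw [Finset.card_univ]; exact hcard) (s := s) (f := f) (Finset.subset_univ _) hinj
    refine ⟨g.trans (Equiv.subtypeUnivEquiv fun x => Finset.mem_univ x), fun y => ?_⟩
    have hσ : ∀ p ∈ s, (g.trans (Equiv.subtypeUnivEquiv fun x => Finset.mem_univ x)) p = f p := by
      intro p hp
      rw [← hg p hp]
      rfl
    unfold pe pen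
    rw [← Fin.sum_univ_fun_getElem J fun p => if y p.1 = y p.2 then 2 else 0]
    set G : Fin t → ℕ := fun i : Fin t => if y ((g.trans (Equiv.subtypeUnivEquiv fun x => Finset.mem_univ x)) (i, false)) =
          y ((g.trans (Equiv.subtypeUnivEquiv fun x => Finset.mem_univ x)) (i, true)) then 2 else 0 with hG
    have h1 : ∀ i : Fin J.length, (if y (J[(i : ℕ)]).1 = y (J[(i : ℕ)]).2 then 2 else 0) = G (Fin.castLEEmb hlen i) := by
      intro i
      have hs : ∀ b, ((Fin.castLEEmb hlen i, b) : Fin t × Bool) ∈ s := by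
        intro b
        simp [s]
      rw [hG]
      simp only [hσ _ (hs _)]
      rw [hfalse _ (by simp), htrue _ (by simp)]
      rfl
    have h2 : ∑ i : Fin J.length, G (Fin.castLEEmb hlen i) ≤ ∑ i, G i := by
      rw [← Finset.sum_map Finset.univ (Fin.castLEEmb hlen) G]
      exact Finset.sum_le_sum_of_subset (Finset.subset_univ _)
    rw [Finset.sum_congr rfl fun i _ => h1 i]
    exact h2

/-- mean minimum energy for a list of pairs -/
noncomputable def hA (EA : (A → Bool) → ℕ) (J : List (A × A)) : ℝ :=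
  avg fun s : Equiv.Perm A => (mE (fun y => EA y + pen J (y ∘ s)) : ℝ)

/-- mean minimum energy over perfect matchings -/
noncomputable def fE (EA : (A → Bool) → ℕ) (t : ℕ) : ℝ :=
  avg fun σ : Fin t × Bool ≃ A => (mE (fun y => EA y + pe σ y) : ℝ)

theorem hA_le (EA : (A → Bool) → ℕ) (t : ℕ) (hc : Fintype.card A = 2 * t) (J : List (A × A)) (hJ : (us J).Nodup) :
    hA EA J ≤ fE EA t := by
  obtain ⟨σ, hσ⟩ := exists_ext t hc J hJ
  let e : Equiv.Perm A ≃ (Fin t × Bool ≃ A) :=
    { toFun := fun s => σ.trans s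
      invFun := fun τ => σ.symm.trans τ
      left_inv := by intro s; ext a; simp
      right_inv := by intro τ; ext a; simp }
  unfold hA fE
  rw [← avg_equiv e]
  apply avg_mono
  intro s
  have : mE (fun y => EA y + pen J (y ∘ s)) ≤ mE fun y => EA y + pe (e s) y := by
    apply mE_mono
    intro y
    have := hσ (y ∘ s)
    have h2 : pe σ (y ∘ s) = pe (e s) y := rfl
    omega
  exact_mod_cast this

theorem pen_map {P Q : Type} (g : P → Q) (L : List (P × P)) (z : Q → Bool) :
    pen (L.map fun p => (g p.1, g p.2)) z = pen L (z ∘ g) := by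
  unfold pen
  rw [List.map_map]
  rfl

end

section
variable {A B : Type} [Fintype A] [DecidableEq A] [Fintype B] [DecidableEq B]

theorem hh_split (EA : (A → Bool) → ℕ) (EB : (B → Bool) → ℕ) (J1 : List (A × A)) (J2 : List (B × B)) :
    hh (fun x => EA (x ∘ Sum.inl) + EB (x ∘ Sum.inr)) (st [] J1 J2) ≤ hA EA J1 + hA EB J2 := by
  have h1 : hA EA J1 + hA EB J2 = avg fun s : Equiv.Perm A × Equiv.Perm B =>
      ((mE (fun y => EA y + pen J1 (y ∘ s.1)) : ℝ) + (mE (fun y => EB y + pen J2 (y ∘ s.2)) : ℝ)) := by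
    rw [avg_add, avg_prod, avg_prod]
    congr 1
    · unfold hA
      congr 1
      funext s
      exact (avg_const _).symm
    · exact (avg_const _).symm
  rw [h1]
  unfold hh
  apply avg_mono
  intro s
  obtain ⟨y1, hy1⟩ := exists_mE (fun y => EA y + pen J1 (y ∘ s.1))
  obtain ⟨y2, hy2⟩ := exists_mE (fun y => EB y + pen J2 (y ∘ s.2))
  rw [← hy1, ← hy2]
  have := mE_le (En (fun x => EA (x ∘ Sum.inl) + EB (x ∘ Sum.inr)) (st [] J1 J2) s) (Sum.elim y1 y2)
  have h2 : En (fun x => EA (x ∘ Sum.inl) + EB (x ∘ Sum.inr)) (st [] J1 J2) s (Sum.elim y1 y2) =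
      (EA y1 + pen J1 (y1 ∘ s.1)) + (EB y2 + pen J2 (y2 ∘ s.2)) := by
    unfold En st
    rw [List.map_nil, List.nil_append, pen_append, pen_map, pen_map]
    have e1 : (Sum.elim y1 y2) ∘ Sum.inl = y1 := rfl
    have e2 : (Sum.elim y1 y2) ∘ Sum.inr = y2 := rfl
    have e3 : ((Sum.elim y1 y2) ∘ act s) ∘ Sum.inl = y1 ∘ s.1 := rfl
    have e4 : ((Sum.elim y1 y2) ∘ act s) ∘ Sum.inr = y2 ∘ s.2 := rfl
    simp only [e1, e2, e3, e4]
    ring
  rw [h2] at this
  exact_mod_cast this

theorem us_cons {P : Type} (a b : P) (L : List (P × P)) : (us ((a, b) :: L)).Perm (a :: b :: us L) := by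
  unfold us
  rw [List.map_cons, List.map_cons, List.cons_append]
  exact List.perm_middle.cons a

theorem split (L : List ((A ⊕ B) × (A ⊕ B))) : ∃ (C : List (A × B)) (J1 : List (A × A)) (J2 : List (B × B)),
    (us L).Perm ((usA C J1).map Sum.inl ++ (usB C J2).map Sum.inr) ∧ ∀ x, pen L x = pen (st C J1 J2) x := by
  induction L with
  | nil => exact ⟨[], [], [], List.Perm.refl _, fun x => rfl⟩
  | cons p L ih =>
    obtain ⟨C, J1, J2, h1, h2⟩ := ih
    obtain ⟨p1, p2⟩ := p
    have h0 := (us_cons p1 p2 L).trans ((h1.cons p2).cons p1)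
    rcases p1 with a | b <;> rcases p2 with a' | b'
    · refine ⟨C, (a, a') :: J1, J2, ?_, ?_⟩
      · exact h0.trans (((usA_cons C J1 a a').symm.map Sum.inl).append_right _)
      · intro x
        rw [pen_perm (st_cons1 C J1 J2 a a'), pen_cons, pen_cons, h2]
    · refine ⟨(a, b') :: C, J1, J2, ?_, ?_⟩
      · refine h0.trans ?_
        exact (List.perm_middle.symm).cons (Sum.inl a)
      · intro x
        have : st ((a, b') :: C) J1 J2 = (Sum.inl a, Sum.inr b') :: st C J1 J2 := rfl
        rw [this, pen_cons, pen_cons, h2]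
    · refine ⟨(a', b) :: C, J1, J2, ?_, ?_⟩
      · refine h0.trans ((List.Perm.swap _ _ _).trans ?_)
        exact (List.perm_middle.symm).cons (Sum.inl a')
      · intro x
        have : st ((a', b) :: C) J1 J2 = (Sum.inl a', Sum.inr b) :: st C J1 J2 := rfl
        rw [this, pen_cons, pen_cons, h2]
        congr 1
        simp only [eq_comm]
    · refine ⟨C, J1, (b, b') :: J2, ?_, ?_⟩
      · refine h0.trans ?_
        refine List.Perm.trans ?_ (((usB_cons C J2 b b').symm.map Sum.inr).append_left _)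
        rw [List.map_cons, List.map_cons]
        exact ((List.perm_middle.symm).cons _).trans List.perm_middle.symm
      · intro x
        rw [pen_perm (st_cons2 C J1 J2 b b'), pen_cons, pen_cons, h2]

/-- the list of pairs of a perfect matching -/
def Lσ {t : ℕ} {P : Type} (σ : Fin t × Bool → P) : List (P × P) :=
  (List.finRange t).map fun i => (σ (i, false), σ (i, true))

theorem pen_Lσ {t : ℕ} {P : Type} (σ : Fin t × Bool → P) (x : P → Bool) : pen (Lσ σ) x = pe σ x := by
  unfold pen Lσ pe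
  rw [List.map_map, Fin.sum_univ_def]
  rfl

theorem us_Lσ {t : ℕ} {P : Type} (σ : Fin t × Bool ≃ P) : (us (Lσ σ)).Nodup := by
  unfold us Lσ
  rw [List.map_map, List.map_map, List.nodup_append]
  refine ⟨?_, ?_, ?_⟩
  · apply List.Nodup.map _ (List.nodup_finRange t)
    intro i j hij
    have := σ.injective hij
    simpa using this
  · apply List.Nodup.map _ (List.nodup_finRange t)
    intro i j hij
    have := σ.injective hij
    simpa using this
  · intro a ha b hb hab
    rw [List.mem_map] at ha hb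
    obtain ⟨i, _, rfl⟩ := ha
    obtain ⟨j, _, rfl⟩ := hb
    have := σ.injective hab
    simp at this

theorem hh_matching (EA : (A → Bool) → ℕ) (EB : (B → Bool) → ℕ) (m n : ℕ) (hcA : Fintype.card A = 2 * m)
    (hcB : Fintype.card B = 2 * n) (r : ℕ) (a : ℝ) (hr : 0 < r) (ha : 0 < a)
    (har : 2 * (Fintype.card A : ℝ) ≤ (r : ℝ) ^ 2 / (2 * a)) (σ : Fin (m + n) × Bool ≃ A ⊕ B) :
    hh (fun x => EA (x ∘ Sum.inl) + EB (x ∘ Sum.inr)) (Lσ σ) ≤
      fE EA m + fE EB n + 4 * r + Fintype.card A * (2 / r) + Fintype.card A / (2 * a) := by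
  obtain ⟨C, J1, J2, h1, h2⟩ := split (Lσ σ)
  have h3 : hh (fun x => EA (x ∘ Sum.inl) + EB (x ∘ Sum.inr)) (Lσ σ) =
      hh (fun x => EA (x ∘ Sum.inl) + EB (x ∘ Sum.inr)) (st C J1 J2) := by
    unfold hh En
    simp only [h2]
  rw [h3]
  have h4 := (h1.nodup_iff).mp (us_Lσ σ)
  obtain ⟨h5, h6, h7⟩ := List.nodup_append.mp h4
  have h8 : (usA C J1).Nodup := h5.of_map _
  have h9 : (usB C J2).Nodup := h6.of_map _
  have h10 := free_card _ h8
  have h11 := free_card _ h9
  have h12 := h1.length_eq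
  rw [us_len, List.length_append, List.length_map, List.length_map] at h12
  have h13 : (Lσ σ).length = m + n := by simp [Lσ]
  rw [usA_len] at h10 h12
  rw [usB_len] at h11 h12
  apply main1 _ (fE EA m + fE EB n) r a hr ha har _ C J1 J2 h8 h9 (by omega) (by omega)
  intro J1 J2 hJ1 hJ2
  have e1 := hh_split EA EB J1 J2
  have e2 := hA_le EA m hcA J1 hJ1
  have e3 := hA_le EB n hcB J2 hJ2
  linarith

theorem fE_sum (E0 : (A ⊕ B → Bool) → ℕ) (t : ℕ) :
    fE E0 t = avg fun σ : Fin t × Bool ≃ A ⊕ B => hh E0 (Lσ σ) := by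
  unfold hh
  rw [avg_comm]
  have h1 : ∀ s : Equiv.Perm A × Equiv.Perm B,
      (avg fun σ : Fin t × Bool ≃ A ⊕ B => (mE (En E0 (Lσ σ) s) : ℝ)) = fE E0 t := by
    intro s
    unfold fE
    let e : (Fin t × Bool ≃ A ⊕ B) ≃ (Fin t × Bool ≃ A ⊕ B) :=
      { toFun := fun σ => σ.trans (Equiv.sumCongr s.1 s.2)
        invFun := fun σ => σ.trans (Equiv.sumCongr s.1 s.2).symm
        left_inv := by intro σ; ext a; simp
        right_inv := by intro σ; ext a; simp }
    rw [← avg_equiv e (fun σ : Fin t × Bool ≃ A ⊕ B => (mE (fun y => E0 y + pe σ y) : ℝ))]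
    congr 1
    funext σ
    congr 2
    funext x
    unfold En
    rw [pen_Lσ]
    rfl
  simp only [h1]
  rw [avg_const]

theorem fE_sub (EA : (A → Bool) → ℕ) (EB : (B → Bool) → ℕ) (m n : ℕ) (hcA : Fintype.card A = 2 * m)
    (hcB : Fintype.card B = 2 * n) (r : ℕ) (a : ℝ) (hr : 0 < r) (ha : 0 < a)
    (har : 2 * (Fintype.card A : ℝ) ≤ (r : ℝ) ^ 2 / (2 * a)) :
    fE (fun x : A ⊕ B → Bool => EA (x ∘ Sum.inl) + EB (x ∘ Sum.inr)) (m + n) ≤
      fE EA m + fE EB n + 4 * r + Fintype.card A * (2 / r) + Fintype.card A / (2 * a) := by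
  have hcard : Fintype.card (Fin (m + n) × Bool) = Fintype.card (A ⊕ B) := by
    rw [Fintype.card_prod, Fintype.card_fin, Fintype.card_bool, Fintype.card_sum, hcA, hcB]; ring
  haveI : Nonempty (Fin (m + n) × Bool ≃ A ⊕ B) := ⟨Fintype.equivOfCardEq hcard⟩
  rw [fE_sum]
  apply avg_le
  intro σ
  exact hh_matching EA EB m n hcA hcB r a hr ha har σ

end

end Pool.Agent.R928.NK
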