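import Mathlib

/-! Minimum energies, adding a soft constraint, and the basic inequality. -/

set_option autoImplicit false
set_option linter.all false

namespace Pool.Agent.R928.NK

open Finset

section
variable {P : Type}

/-- the minimum of an energy -/
noncomputable def mE (H : (P → Bool) → ℕ) : ℕ := sInf (Set.range H)

theorem mE_le (H : (P → Bool) → ℕ) (x : P → Bool) : mE H ≤ H x := Nat.sInf_le ⟨x, rfl⟩

theorem exists_mE (H : (P → Bool) → ℕ) : ∃ x, H x = mE H := by
  have : mE H ∈ Set.range H := Nat.sInf_mem (Set.range_nonempty H)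
  exact this

theorem le_mE {H : (P → Bool) → ℕ} {n : ℕ} (h : ∀ x, n ≤ H x) : n ≤ mE H := by
  obtain ⟨x, hx⟩ := exists_mE H
  rw [← hx]; exact h x

/-- adding a soft constraint -/
def addP (H : (P → Bool) → ℕ) (a b : P) : (P → Bool) → ℕ := fun x => H x + if x a = x b then 2 else 0

/-- `a`, `b` get the same value in all nearly optimal configurations -/
def rel (H : (P → Bool) → ℕ) (l : ℕ) (a b : P) : Prop := ∀ x, H x ≤ mE H + l → x a = x b

open Classical in
theorem mE_addP (H : (P → Bool) → ℕ) (a b : P) :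
    mE (addP H a b) = mE H + (if rel H 0 a b then 1 else 0) + (if rel H 1 a b then 1 else 0) := by
  obtain ⟨x0, hx0⟩ := exists_mE H
  by_cases h0 : rel H 0 a b
  · by_cases h1 : rel H 1 a b
    · rw [if_pos h0, if_pos h1]
      apply le_antisymm
      · refine (mE_le _ x0).trans ?_
        unfold addP
        rw [hx0]
        split_ifs <;> omega
      · apply le_mE
        intro x
        unfold addP
        by_cases hx : x a = x b
        · rw [if_pos hx]
          have := mE_le H x
          omega
        · rw [if_neg hx]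
          by_contra hlt
          exact hx (h1 x (by omega))
    · rw [if_pos h0, if_neg h1]
      unfold rel at h1
      push Not at h1
      obtain ⟨x1, hx1, hx1'⟩ := h1
      apply le_antisymm
      · refine (mE_le _ x1).trans ?_
        unfold addP
        rw [if_neg hx1']
        omega
      · apply le_mE
        intro x
        unfold addP
        by_cases hx : x a = x b
        · rw [if_pos hx]
          have := mE_le H x
          omega
        · rw [if_neg hx]
          by_contra hlt
          exact hx (h0 x (by omega))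
  · have h1 : ¬ rel H 1 a b := fun h => h0 fun x hx => h x (by omega)
    rw [if_neg h0, if_neg h1]
    unfold rel at h0
    push Not at h0
    obtain ⟨x1, hx1, hx1'⟩ := h0
    apply le_antisymm
    · refine (mE_le _ x1).trans ?_
      unfold addP
      rw [if_neg hx1']
      omega
    · apply le_mE
      intro x
      unfold addP
      have := mE_le H x
      omega

theorem mE_le_addP (H : (P → Bool) → ℕ) (a b : P) : mE H ≤ mE (addP H a b) := by
  classical
  rw [mE_addP]; omega

theorem mE_addP_le (H : (P → Bool) → ℕ) (a b : P) : mE (addP H a b) ≤ mE H + 2 := by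
  classical
  rw [mE_addP]
  split_ifs <;> omega

end

section
variable {P : Type} [Fintype P] [DecidableEq P]

/-- the class of an element -/
noncomputable def cls (H : (P → Bool) → ℕ) (l : ℕ) (a : P) : Finset P := by
  classical exact Finset.univ.filter fun b => rel H l a b

theorem rel_iff (H : (P → Bool) → ℕ) (l : ℕ) (a b : P) : rel H l a b ↔ cls H l a = cls H l b := by
  classical
  constructor
  · intro h
    ext c
    simp only [cls, Finset.mem_filter, Finset.mem_univ, true_and]
    constructor
    · intro h' x hx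
      rw [← h x hx, h' x hx]
    · intro h' x hx
      rw [h x hx, h' x hx]
  · intro h
    have : b ∈ cls H l b := by
      simp only [cls, Finset.mem_filter, Finset.mem_univ, true_and]
      intro x _; rfl
    rw [← h] at this
    simpa only [cls, Finset.mem_filter, Finset.mem_univ, true_and] using this

theorem sum_ind {Q : Type} [Fintype Q] [DecidableEq Q] (q : P → Q) (F G : Finset P) :
    ∑ a ∈ F, ∑ b ∈ G, (if q a = q b then (1 : ℝ) else 0) =
      ∑ k : Q, ((F.filter fun a => q a = k).card : ℝ) * ((G.filter fun b => q b = k).card : ℝ) := by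
  have h1 : ∀ a b, (if q a = q b then (1 : ℝ) else 0) =
      ∑ k : Q, (if q a = k then 1 else 0) * (if q b = k then 1 else 0) := by
    intro a b
    rw [Finset.sum_eq_single (q a)]
    · by_cases h : q a = q b
      · simp [h]
      · simp [h, Ne.symm h]
    · intro k _ hk
      simp [Ne.symm hk]
    · intro h; exact absurd (Finset.mem_univ _) h
  simp only [h1]
  rw [Finset.sum_congr rfl fun a _ => Finset.sum_comm]
  rw [Finset.sum_comm]
  refine Finset.sum_congr rfl fun k _ => ?_
  rw [Finset.card_filter, Finset.card_filter]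
  push_cast
  rw [Finset.sum_mul_sum]

theorem psd {Q : Type} [Fintype Q] [DecidableEq Q] (q : P → Q) (F G : Finset P) (u v : ℝ) :
    2 * u * v * ∑ a ∈ F, ∑ b ∈ G, (if q a = q b then (1 : ℝ) else 0) ≤
      u ^ 2 * ∑ a ∈ F, ∑ b ∈ F, (if q a = q b then (1 : ℝ) else 0) +
      v ^ 2 * ∑ a ∈ G, ∑ b ∈ G, (if q a = q b then (1 : ℝ) else 0) := by
  rw [sum_ind, sum_ind, sum_ind, Finset.mul_sum, Finset.mul_sum, Finset.mul_sum, ← Finset.sum_add_distrib]
  refine Finset.sum_le_sum fun k _ => ?_
  nlinarith [sq_nonneg (u * ((F.filter fun a => q a = k).card : ℝ) - v * ((G.filter fun b => q b = k).card : ℝ))]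

/-- increment of the minimum energy -/
noncomputable def dl (H : (P → Bool) → ℕ) (a b : P) : ℝ := (mE (addP H a b) : ℝ) - mE H

theorem dl_eq (H : (P → Bool) → ℕ) (a b : P) : dl H a b =
    (if cls H 0 a = cls H 0 b then (1 : ℝ) else 0) + (if cls H 1 a = cls H 1 b then (1 : ℝ) else 0) := by
  classical
  unfold dl
  rw [mE_addP]
  simp only [rel_iff]
  push_cast
  ring

theorem dl_nonneg (H : (P → Bool) → ℕ) (a b : P) : 0 ≤ dl H a b := by
  unfold dl
  have := mE_le_addP H a b
  have : (mE H : ℝ) ≤ mE (addP H a b) := by exact_mod_cast this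
  linarith

theorem dl_le (H : (P → Bool) → ℕ) (a b : P) : dl H a b ≤ 2 := by
  unfold dl
  have := mE_addP_le H a b
  have : (mE (addP H a b) : ℝ) ≤ mE H + 2 := by exact_mod_cast this
  linarith

theorem dl_psd (H : (P → Bool) → ℕ) (F G : Finset P) (u v : ℝ) :
    2 * u * v * ∑ a ∈ F, ∑ b ∈ G, dl H a b ≤
      u ^ 2 * ∑ a ∈ F, ∑ b ∈ F, dl H a b + v ^ 2 * ∑ a ∈ G, ∑ b ∈ G, dl H a b := by
  simp only [dl_eq, Finset.sum_add_distrib]
  have h0 := psd (cls H 0) F G u v
  have h1 := psd (cls H 1) F G u v
  nlinarith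

/-- The basic inequality: the mean increment for a cross pair is at most the average of the mean increments
for pairs inside the two sets, up to small errors. -/
theorem basic (H : (P → Bool) → ℕ) (F G : Finset P) (hF : 2 ≤ F.card) (hG : 2 ≤ G.card) :
    2 * ((∑ a ∈ F, ∑ b ∈ G, dl H a b) / (F.card * G.card)) ≤
      (∑ a ∈ F, ∑ b ∈ F.erase a, dl H a b) / (F.card * (F.card - 1)) +
      (∑ a ∈ G, ∑ b ∈ G.erase a, dl H a b) / (G.card * (G.card - 1)) + 2 / F.card + 2 / G.card := by
  have hF' : (2 : ℝ) ≤ F.card := by exact_mod_cast hF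
  have hG' : (2 : ℝ) ≤ G.card := by exact_mod_cast hG
  have h1 := dl_psd H F G (1 / F.card) (1 / G.card)
  have key : ∀ (F : Finset P), 2 ≤ F.card → (1 / (F.card : ℝ)) ^ 2 * ∑ a ∈ F, ∑ b ∈ F, dl H a b ≤
      (∑ a ∈ F, ∑ b ∈ F.erase a, dl H a b) / (F.card * (F.card - 1)) + 2 / F.card := by
    intro F hF
    have hF' : (2 : ℝ) ≤ F.card := by exact_mod_cast hF
    have h2 : ∑ a ∈ F, ∑ b ∈ F, dl H a b = ∑ a ∈ F, ∑ b ∈ F.erase a, dl H a b + ∑ a ∈ F, dl H a a := by
      rw [← Finset.sum_add_distrib]
      refine Finset.sum_congr rfl fun a ha => ?_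
      rw [Finset.sum_erase_add _ _ ha]
    have h3 : ∑ a ∈ F, dl H a a ≤ 2 * F.card := by
      calc ∑ a ∈ F, dl H a a ≤ ∑ a ∈ F, (2 : ℝ) := Finset.sum_le_sum fun a _ => dl_le H a a
        _ = 2 * F.card := by rw [Finset.sum_const, nsmul_eq_mul]; ring
    have h4 : 0 ≤ ∑ a ∈ F, ∑ b ∈ F.erase a, dl H a b :=
      Finset.sum_nonneg fun a _ => Finset.sum_nonneg fun b _ => dl_nonneg H a b
    rw [h2]
    set S := ∑ a ∈ F, ∑ b ∈ F.erase a, dl H a b
    set m : ℝ := (F.card : ℝ)
    have h5 : (1 / m) ^ 2 * (S + ∑ a ∈ F, dl H a a) ≤ (1 / m) ^ 2 * (S + 2 * m) := by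
      apply mul_le_mul_of_nonneg_left _ (by positivity)
      linarith
    refine h5.trans ?_
    have h6 : (1 / m) ^ 2 * (S + 2 * m) = S / (m * m) + 2 / m := by
      field_simp
    rw [h6]
    have h7 : S / (m * m) ≤ S / (m * (m - 1)) := by
      apply div_le_div_of_nonneg_left h4 (by nlinarith) (by nlinarith)
    linarith
  have hk1 := key F hF
  have hk2 := key G hG
  have h8 : 2 * ((∑ a ∈ F, ∑ b ∈ G, dl H a b) / (F.card * G.card)) =
      2 * (1 / (F.card : ℝ)) * (1 / G.card) * ∑ a ∈ F, ∑ b ∈ G, dl H a b := by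
    field_simp
  rw [h8]
  linarith

end

end Pool.Agent.R928.NK
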