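import Pool.Agent.R928.NK.Avg

/-! The backward induction removing the cross pairs. -/

set_option autoImplicit false
set_option linter.all false

namespace Pool.Agent.R928.NK

open Finset

section
variable {A B : Type} [Fintype A] [DecidableEq A] [Fintype B] [DecidableEq B]

/-- the list of all pairs -/
def st (C : List (A × B)) (J1 : List (A × A)) (J2 : List (B × B)) : List ((A ⊕ B) × (A ⊕ B)) :=
  C.map (fun p => (Sum.inl p.1, Sum.inr p.2)) ++ (J1.map (fun p => (Sum.inl p.1, Sum.inl p.2)) ++
    J2.map (fun p => (Sum.inr p.1, Sum.inr p.2)))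

def usA (C : List (A × B)) (J1 : List (A × A)) : List A := C.map Prod.fst ++ us J1

def usB (C : List (A × B)) (J2 : List (B × B)) : List B := C.map Prod.snd ++ us J2

theorem inl_mem (C : List (A × B)) (J1 : List (A × A)) (J2 : List (B × B)) (a : A) :
    Sum.inl a ∈ us (st C J1 J2) ↔ a ∈ usA C J1 := by
  simp [us, st, usA]

theorem inr_mem (C : List (A × B)) (J1 : List (A × A)) (J2 : List (B × B)) (b : B) :
    Sum.inr b ∈ us (st C J1 J2) ↔ b ∈ usB C J2 := by
  simp [us, st, usB]
  tauto

theorem usA_len (C : List (A × B)) (J1 : List (A × A)) : (usA C J1).length = C.length + 2 * J1.length := by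
  simp [usA, us]; ring

theorem usB_len (C : List (A × B)) (J2 : List (B × B)) : (usB C J2).length = C.length + 2 * J2.length := by
  simp [usB, us]; ring

theorem usA_cons (C : List (A × B)) (J1 : List (A × A)) (p q : A) :
    (usA C ((p, q) :: J1)).Perm (p :: q :: usA C J1) := by
  rw [List.perm_iff_count]
  intro a
  simp only [usA, us, List.map_cons, List.count_append, List.count_cons]
  omega

theorem usB_cons (C : List (A × B)) (J2 : List (B × B)) (p q : B) :
    (usB C ((p, q) :: J2)).Perm (p :: q :: usB C J2) := by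
  rw [List.perm_iff_count]
  intro a
  simp only [usB, us, List.map_cons, List.count_append, List.count_cons]
  omega

theorem st_cons1 (C : List (A × B)) (J1 : List (A × A)) (J2 : List (B × B)) (p q : A) :
    (st C ((p, q) :: J1) J2).Perm ((Sum.inl p, Sum.inl q) :: st C J1 J2) := by
  unfold st
  rw [List.map_cons]
  exact List.perm_middle

theorem st_cons2 (C : List (A × B)) (J1 : List (A × A)) (J2 : List (B × B)) (p q : B) :
    (st C J1 ((p, q) :: J2)).Perm ((Sum.inr p, Sum.inr q) :: st C J1 J2) := by
  unfold st
  rw [List.map_cons, ← List.append_assoc, ← List.append_assoc]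
  exact List.perm_middle

variable (E0 : (A ⊕ B → Bool) → ℕ)

theorem hh_le (L M : List ((A ⊕ B) × (A ⊕ B))) (k : ℕ) (h : ∀ x, pen L x ≤ pen M x + k) :
    hh E0 L ≤ hh E0 M + k := by
  unfold hh
  rw [← avg_const (α := Equiv.Perm A × Equiv.Perm B) (k : ℝ), ← avg_add]
  apply avg_mono
  intro s
  obtain ⟨x, hx⟩ := exists_mE (En E0 M s)
  have h1 : mE (En E0 L s) ≤ mE (En E0 M s) + k := by
    refine (mE_le _ x).trans ?_
    rw [← hx]
    unfold En
    have := h (x ∘ act s)
    omega
  exact_mod_cast h1

theorem hh_perm {L M : List ((A ⊕ B) × (A ⊕ B))} (h : L.Perm M) : hh E0 L = hh E0 M := by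
  unfold hh En
  simp only [pen_perm h]

theorem hh_drop (C : List (A × B)) (J1 : List (A × A)) (J2 : List (B × B)) (k : ℕ) :
    hh E0 (st C J1 J2) ≤ hh E0 (st (C.drop k) J1 J2) + ((2 * k : ℕ) : ℝ) := by
  apply hh_le
  intro x
  unfold st
  conv_lhs => rw [← List.take_append_drop k C]
  simp only [List.map_append, pen_append]
  have := pen_le ((C.take k).map (fun p => ((Sum.inl p.1, Sum.inr p.2) : (A ⊕ B) × (A ⊕ B)))) x
  rw [List.length_map, List.length_take] at this
  have h2 : min k C.length ≤ k := min_le_left _ _
  omega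

theorem exists_other {A : Type} [DecidableEq A] (F : Finset A) (u : A) (h : 2 ≤ F.card) : ∃ w ∈ F, u ≠ w := by
  by_contra hcon
  push Not at hcon
  have : F ⊆ {u} := by
    intro w hw
    rw [Finset.mem_singleton, hcon w hw]
  have := Finset.card_le_card this
  rw [Finset.card_singleton] at this
  omega

theorem free_card {A : Type} [Fintype A] [DecidableEq A] (l : List A) (h : l.Nodup) :
    (Finset.univ.filter fun a => a ∉ l).card + l.length = Fintype.card A := by
  have h1 : (Finset.univ.filter fun a => a ∉ l) = Finset.univ \ l.toFinset := by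
    ext a; simp
  rw [h1, Finset.card_sdiff_of_subset (Finset.subset_univ _), List.toFinset_card_of_nodup h, Finset.card_univ]
  have h2 : l.length ≤ Fintype.card A := by
    rw [← List.toFinset_card_of_nodup h]
    exact Finset.card_le_univ _
  omega

/-- The backward induction. -/
theorem claim (V : ℝ) (r : ℕ) (a : ℝ) (hr : 0 < r) (ha : 0 < a) (har : 2 * (Fintype.card A : ℝ) ≤ (r : ℝ) ^ 2 / (2 * a))
    (hV : ∀ (J1 : List (A × A)) (J2 : List (B × B)), (us J1).Nodup → (us J2).Nodup → hh E0 (st [] J1 J2) ≤ V) :
    ∀ (C : List (A × B)) (J1 : List (A × A)) (J2 : List (B × B)), (usA C J1).Nodup → (usB C J2).Nodup →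
      Fintype.card A + Fintype.card B = 4 * r + 2 * C.length + 2 * J1.length + 2 * J2.length →
      hh E0 (st C J1 J2) ≤ V + C.length * (2 / r) +
        ((((Fintype.card A : ℝ) - 2 * J1.length) - ((Fintype.card B : ℝ) - 2 * J2.length)) ^ 2 / 4 + C.length) / (2 * a) := by
  intro C
  induction C with
  | nil =>
    intro J1 J2 h1 h2 h3
    have := hV J1 J2 h1 h2
    have h4 : 0 ≤ ((((Fintype.card A : ℝ) - 2 * J1.length) - ((Fintype.card B : ℝ) - 2 * J2.length)) ^ 2 / 4 +
        ((([] : List (A × B)).length : ℕ) : ℝ)) / (2 * a) := by positivity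
    have h5 : ((([] : List (A × B)).length : ℕ) : ℝ) * (2 / r) = 0 := by simp
    linarith
  | cons p C ih =>
    obtain ⟨u, v⟩ := p
    intro J1 J2 h1 h2 h3
    have hnu : u ∉ usA C J1 ∧ (usA C J1).Nodup := List.nodup_cons.mp h1
    have hnv : v ∉ usB C J2 ∧ (usB C J2).Nodup := List.nodup_cons.mp h2
    have hr' : (0 : ℝ) < r := by exact_mod_cast hr
    set d : ℝ := ((Fintype.card A : ℝ) - 2 * J1.length) - ((Fintype.card B : ℝ) - 2 * J2.length) with hd
    have hlen : (((u, v) :: C).length : ℝ) = C.length + 1 := by simp
    have hCA : (((u, v) :: C).length : ℝ) ≤ Fintype.card A := by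
      have h4 := free_card _ h1
      rw [usA_len] at h4
      have : ((u, v) :: C).length ≤ Fintype.card A := by omega
      exact_mod_cast this
    by_cases hcase : (2 * (r : ℝ)) ^ 2 ≤ d ^ 2
    · have h4 := hh_drop E0 ((u, v) :: C) J1 J2 ((u, v) :: C).length
      rw [List.drop_length] at h4
      have h5 := hV J1 J2 (List.Nodup.of_append_right h1) (List.Nodup.of_append_right h2)
      push_cast at h4
      have h6 : (r : ℝ) ^ 2 / (2 * a) ≤ (d ^ 2 / 4) / (2 * a) := by
        apply div_le_div_of_nonneg_right _ (by positivity)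
        nlinarith
      have h7 : 0 ≤ (((u, v) :: C).length : ℝ) * (2 / r) := by positivity
      have h8 : 0 ≤ (((u, v) :: C).length : ℝ) / (2 * a) := by positivity
      rw [add_div]
      linarith
    · push Not at hcase
      have hF := free_card _ hnu.2
      have hG := free_card _ hnv.2
      rw [usA_len] at hF
      rw [usB_len] at hG
      rw [List.length_cons] at h3
      set F := Finset.univ.filter fun a => a ∉ usA C J1 with hFdef
      set G := Finset.univ.filter fun a => a ∉ usB C J2 with hGdef
      have hFr : (F.card : ℝ) = Fintype.card A - C.length - 2 * J1.length := by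
        have : (F.card : ℝ) + (C.length + 2 * J1.length) = Fintype.card A := by exact_mod_cast hF
        linarith
      have hGr : (G.card : ℝ) = Fintype.card B - C.length - 2 * J2.length := by
        have : (G.card : ℝ) + (C.length + 2 * J2.length) = Fintype.card B := by exact_mod_cast hG
        linarith
      have hsum : (F.card : ℝ) + G.card = 4 * r + 2 := by
        have : F.card + G.card = 4 * r + 2 := by omega
        exact_mod_cast this
      have hd' : d = F.card - G.card := by rw [hd, hFr, hGr]; ring
      have habs := abs_lt_of_sq_lt_sq hcase (by positivity)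
      have hrr := abs_lt.mp habs
      have hFr1 : (r : ℝ) + 1 < F.card := by linarith [hrr.1]
      have hGr1 : (r : ℝ) + 1 < G.card := by linarith [hrr.2]
      have hF2 : 2 ≤ F.card := by
        have : r + 1 < F.card := by exact_mod_cast hFr1
        omega
      have hG2 : 2 ≤ G.card := by
        have : r + 1 < G.card := by exact_mod_cast hGr1
        omega
      obtain ⟨u2, hu2, hu2'⟩ := exists_other F u hF2
      obtain ⟨v2, hv2, hv2'⟩ := exists_other G v hG2
      have huF : u ∈ F := by rw [hFdef, Finset.mem_filter]; exact ⟨Finset.mem_univ _, hnu.1⟩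
      have hvG : v ∈ G := by rw [hGdef, Finset.mem_filter]; exact ⟨Finset.mem_univ _, hnv.1⟩
      have hst := star E0 (st C J1 J2) F G (fun a ha h => by
          rw [inl_mem] at h
          rw [hFdef, Finset.mem_filter] at ha
          exact ha.2 h) (fun b hb h => by
          rw [inr_mem] at h
          rw [hGdef, Finset.mem_filter] at hb
          exact hb.2 h) hF2 hG2 huF huF hu2 hvG hvG hv2 hu2' hv2'
      rw [← hh_perm E0 (st_cons1 C J1 J2 u u2), ← hh_perm E0 (st_cons2 C J1 J2 v v2)] at hst
      have hu2n : u2 ∉ usA C J1 := by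
        rw [hFdef, Finset.mem_filter] at hu2; exact hu2.2
      have hv2n : v2 ∉ usB C J2 := by
        rw [hGdef, Finset.mem_filter] at hv2; exact hv2.2
      have i1 := ih ((u, u2) :: J1) J2 (by
          rw [(usA_cons C J1 u u2).nodup_iff, List.nodup_cons, List.nodup_cons]
          refine ⟨?_, hu2n, hnu.2⟩
          rw [List.mem_cons]
          rintro (h | h)
          · exact hu2' h
          · exact hnu.1 h) hnv.2 (by rw [List.length_cons]; omega)
      have i2 := ih J1 ((v, v2) :: J2) hnu.2 (by
          rw [(usB_cons C J2 v v2).nodup_iff, List.nodup_cons, List.nodup_cons]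
          refine ⟨?_, hv2n, hnv.2⟩
          rw [List.mem_cons]
          rintro (h | h)
          · exact hv2' h
          · exact hnv.1 h) (by rw [List.length_cons]; omega)
      rw [List.length_cons] at i1 i2
      push_cast at i1 i2
      have e1 : (Fintype.card A : ℝ) - 2 * (J1.length + 1) - (Fintype.card B - 2 * J2.length) = d - 2 := by
        rw [hd]; ring
      have e2 : (Fintype.card A : ℝ) - 2 * J1.length - (Fintype.card B - 2 * (J2.length + 1)) = d + 2 := by
        rw [hd]; ring
      rw [e1] at i1
      rw [e2] at i2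
      have hlast : hh E0 (st ((u, v) :: C) J1 J2) = hh E0 ((Sum.inl u, Sum.inr v) :: st C J1 J2) := rfl
      rw [hlast, hlen]
      have b1 : 2 / (F.card : ℝ) ≤ 2 / r := div_le_div_of_nonneg_left (by norm_num) hr' (by linarith)
      have b2 : 2 / (G.card : ℝ) ≤ 2 / r := div_le_div_of_nonneg_left (by norm_num) hr' (by linarith)
      have e3 : (d ^ 2 / 4 + ((C.length : ℝ) + 1)) / (2 * a) =
          (((d - 2) ^ 2 / 4 + C.length) / (2 * a) + ((d + 2) ^ 2 / 4 + C.length) / (2 * a)) / 2 := by
        field_simp
        ring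
      rw [e3]
      linarith

/-- All cross pairs removed from a complete state. -/
theorem main1 (V : ℝ) (r : ℕ) (a : ℝ) (hr : 0 < r) (ha : 0 < a) (har : 2 * (Fintype.card A : ℝ) ≤ (r : ℝ) ^ 2 / (2 * a))
    (hV : ∀ (J1 : List (A × A)) (J2 : List (B × B)), (us J1).Nodup → (us J2).Nodup → hh E0 (st [] J1 J2) ≤ V)
    (C : List (A × B)) (J1 : List (A × A)) (J2 : List (B × B)) (h1 : (usA C J1).Nodup) (h2 : (usB C J2).Nodup)
    (h3 : Fintype.card A = C.length + 2 * J1.length) (h4 : Fintype.card B = C.length + 2 * J2.length) :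
    hh E0 (st C J1 J2) ≤ V + 4 * r + Fintype.card A * (2 / r) + Fintype.card A / (2 * a) := by
  have hr' : (0 : ℝ) < r := by exact_mod_cast hr
  have p1 : 0 ≤ (Fintype.card A : ℝ) * (2 / r) := by positivity
  have p2 : 0 ≤ (Fintype.card A : ℝ) / (2 * a) := by positivity
  by_cases hc : C.length ≤ 2 * r
  · have h5 := hh_drop E0 C J1 J2 C.length
    rw [List.drop_length] at h5
    have h6 := hV J1 J2 (List.Nodup.of_append_right h1) (List.Nodup.of_append_right h2)
    have h7 : ((2 * C.length : ℕ) : ℝ) ≤ 4 * r := by
      have : 2 * C.length ≤ 4 * r := by omega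
      exact_mod_cast this
    linarith
  · push Not at hc
    have h5 := hh_drop E0 C J1 J2 (2 * r)
    have hl : (C.drop (2 * r)).length = C.length - 2 * r := List.length_drop
    have hsA : (usA (C.drop (2 * r)) J1).Sublist (usA C J1) := by
      unfold usA
      exact List.Sublist.append ((List.drop_sublist _ _).map _) (List.Sublist.refl _)
    have hsB : (usB (C.drop (2 * r)) J2).Sublist (usB C J2) := by
      unfold usB
      exact List.Sublist.append ((List.drop_sublist _ _).map _) (List.Sublist.refl _)
    have h6 := claim E0 V r a hr ha har hV (C.drop (2 * r)) J1 J2 (h1.sublist hsA) (h2.sublist hsB)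
      (by rw [hl]; omega)
    have e0 : (Fintype.card A : ℝ) - 2 * J1.length - (Fintype.card B - 2 * J2.length) = 0 := by
      rw [h3, h4]; push_cast; ring
    rw [e0] at h6
    have h7 : ((C.drop (2 * r)).length : ℝ) ≤ Fintype.card A := by
      have : (C.drop (2 * r)).length ≤ Fintype.card A := by rw [hl, h3]; omega
      exact_mod_cast this
    have h8 : ((C.drop (2 * r)).length : ℝ) * (2 / r) ≤ Fintype.card A * (2 / r) :=
      mul_le_mul_of_nonneg_right h7 (by positivity)
    have h9 : (0 ^ 2 / 4 + ((C.drop (2 * r)).length : ℝ)) / (2 * a) ≤ Fintype.card A / (2 * a) := by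
      apply div_le_div_of_nonneg_right _ (by positivity)
      linarith
    push_cast at h5
    linarith

end

end Pool.Agent.R928.NK
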