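import Pool.Agent.R928.NK.Half

/-! Number of changes of a word, subadditivity, and the limit of the mean. -/

set_option autoImplicit false
set_option linter.all false

namespace Pool.Agent.R928.NK

open Finset Filter Topology

/-- value of a configuration at a natural number -/
def ext {n : ℕ} (y : Fin n → Bool) (j : ℕ) : Bool := if h : j < n then y ⟨j, h⟩ else false

/-- number of changes of a word -/
def ch (n : ℕ) (y : Fin n → Bool) : ℕ := ∑ j ∈ Finset.range (n - 1), if ext y j = ext y (j + 1) then 0 else 1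

theorem ch_flip {n : ℕ} (y y' : Fin n → Bool) (S : Finset (Fin n)) (h : ∀ j, j ∉ S → y' j = y j) :
    ch n y' ≤ ch n y + 2 * S.card := by
  classical
  set S' : Finset ℕ := S.map Fin.valEmbedding with hS'
  have hc : S'.card = S.card := Finset.card_map _
  have hext : ∀ j, j ∉ S' → ext y' j = ext y j := by
    intro j hj
    unfold ext
    split_ifs with hjn
    · apply h
      intro hmem
      apply hj
      rw [hS', Finset.mem_map]
      exact ⟨⟨j, hjn⟩, hmem, rfl⟩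
    · rfl
  unfold ch
  have h1 : ∀ j ∈ Finset.range (n - 1), (if ext y' j = ext y' (j + 1) then 0 else 1) ≤
      (if ext y j = ext y (j + 1) then 0 else 1) + ((if j ∈ S' then 1 else 0) + (if j + 1 ∈ S' then 1 else 0)) := by
    intro j _
    by_cases c1 : j ∈ S'
    · simp only [if_pos c1]
      split_ifs <;> omega
    · by_cases c2 : j + 1 ∈ S'
      · simp only [if_pos c2]
        split_ifs <;> omega
      · rw [hext j c1, hext (j + 1) c2]
        simp
  refine (Finset.sum_le_sum h1).trans ?_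
  rw [Finset.sum_add_distrib, Finset.sum_add_distrib, ← Finset.card_filter, ← Finset.card_filter]
  have h2 : ((Finset.range (n - 1)).filter fun j => j ∈ S').card ≤ S'.card := by
    apply Finset.card_le_card
    intro j hj
    exact (Finset.mem_filter.mp hj).2
  have h3 : ((Finset.range (n - 1)).filter fun j => j + 1 ∈ S').card ≤ S'.card := by
    apply Finset.card_le_card_of_injOn (fun j => j + 1)
    · intro j hj
      exact (Finset.mem_filter.mp hj).2
    · intro a _ b _ hab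
      simpa using hab
  omega

theorem ch_join (m n : ℕ) (hm : 0 < m) (hn : 0 < n) (y : Fin (m + n) → Bool) :
    ch (m + n) y ≤ ch m (fun i => y (Fin.castAdd n i)) + ch n (fun j => y (Fin.natAdd m j)) + 1 := by
  obtain ⟨m, rfl⟩ : ∃ k, m = k + 1 := ⟨m - 1, by omega⟩
  obtain ⟨n, rfl⟩ : ∃ k, n = k + 1 := ⟨n - 1, by omega⟩
  unfold ch
  have e0 : m + 1 + (n + 1) - 1 = (m + 1) + n := by omega
  rw [e0, Finset.sum_range_add, Finset.sum_range_succ, Nat.add_sub_cancel, Nat.add_sub_cancel]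
  have h1 : ∀ j ∈ Finset.range m, (if ext y j = ext y (j + 1) then 0 else 1) =
      if ext (fun i => y (Fin.castAdd (n + 1) i)) j = ext (fun i => y (Fin.castAdd (n + 1) i)) (j + 1) then 0 else 1 := by
    intro j hj
    rw [Finset.mem_range] at hj
    have a1 : ext y j = ext (fun i => y (Fin.castAdd (n + 1) i)) j := by
      unfold ext
      rw [dif_pos (by omega), dif_pos (by omega)]
      rfl
    have a2 : ext y (j + 1) = ext (fun i => y (Fin.castAdd (n + 1) i)) (j + 1) := by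
      unfold ext
      rw [dif_pos (by omega), dif_pos (by omega)]
      rfl
    rw [a1, a2]
  have h2 : ∀ j ∈ Finset.range n, (if ext y (m + 1 + j) = ext y (m + 1 + j + 1) then 0 else 1) =
      if ext (fun i => y (Fin.natAdd (m + 1) i)) j = ext (fun i => y (Fin.natAdd (m + 1) i)) (j + 1) then 0 else 1 := by
    intro j hj
    rw [Finset.mem_range] at hj
    have a1 : ext y (m + 1 + j) = ext (fun i => y (Fin.natAdd (m + 1) i)) j := by
      unfold ext
      rw [dif_pos (by omega), dif_pos (by omega)]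
      rfl
    have a2 : ext y (m + 1 + j + 1) = ext (fun i => y (Fin.natAdd (m + 1) i)) (j + 1) := by
      unfold ext
      rw [dif_pos (by omega), dif_pos (by omega)]
      rfl
    rw [a1, a2]
  rw [Finset.sum_congr rfl h1, Finset.sum_congr rfl h2]
  have h3 : (if ext y m = ext y (m + 1) then 0 else 1) ≤ 1 := by split_ifs <;> omega
  omega

theorem ch_join' (m n N : ℕ) (hm : 0 < m) (hn : 0 < n) (h : m + n = N) (y : Fin N → Bool) :
    ch N y ≤ ch m ((y ∘ (finSumFinEquiv.trans (finCongr h))) ∘ Sum.inl) +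
      ch n ((y ∘ (finSumFinEquiv.trans (finCongr h))) ∘ Sum.inr) + 1 := by
  subst h
  exact ch_join m n hm hn y

theorem avg_le_add {α : Type} [Fintype α] {F G : α → ℝ} {k : ℝ} (hk : 0 ≤ k) (h : ∀ a, F a ≤ G a + k) :
    avg F ≤ avg G + k := by
  rcases isEmpty_or_nonempty α with hE | hN
  · unfold avg
    simp [hk]
  · calc avg F ≤ avg (fun a => G a + k) := avg_mono h
      _ = avg G + k := by rw [avg_add, avg_const]

theorem fE_trans {A A' : Type} [Fintype A] [DecidableEq A] [Fintype A'] [DecidableEq A'] (e : A ≃ A')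
    (E : (A → Bool) → ℕ) (E' : (A' → Bool) → ℕ) (k t : ℕ) (h : ∀ y : A' → Bool, E' y ≤ E (y ∘ e) + k) :
    fE E' t ≤ fE E t + k := by
  let e' : (Fin t × Bool ≃ A) ≃ (Fin t × Bool ≃ A') :=
    { toFun := fun σ => σ.trans e
      invFun := fun σ => σ.trans e.symm
      left_inv := by intro σ; ext a; simp
      right_inv := by intro σ; ext a; simp }
  unfold fE
  rw [← avg_equiv e' (fun σ : Fin t × Bool ≃ A' => (mE (fun y => E' y + pe σ y) : ℝ))]
  apply avg_le_add (Nat.cast_nonneg _)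
  intro σ
  obtain ⟨x, hx⟩ := exists_mE (fun y => E y + pe σ y)
  have h1 : mE (fun y => E' y + pe (e' σ) y) ≤ mE (fun y => E y + pe σ y) + k := by
    refine (mE_le _ (x ∘ e.symm)).trans ?_
    rw [← hx]
    have h2 := h (x ∘ e.symm)
    have h3 : (x ∘ e.symm) ∘ e = x := by funext a; simp
    have h4 : pe (e' σ) (x ∘ e.symm) = pe σ x := by
      unfold pe
      have : ∀ p, (x ∘ e.symm) ((e' σ) p) = x (σ p) := by
        intro p
        change x (e.symm (e (σ p))) = _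
        rw [Equiv.symm_apply_apply]
      simp only [this]
    rw [h3] at h2
    rw [h4]
    omega
  exact_mod_cast h1

/-- the mean -/
noncomputable def ff (t : ℕ) : ℝ := fE (ch (2 * t)) t

theorem ff_nonneg (t : ℕ) : 0 ≤ ff t := avg_nonneg fun _ => Nat.cast_nonneg _

theorem ff_sub (m n : ℕ) (hm : 0 < m) (hn : 0 < n) (r : ℕ) (a : ℝ) (hr : 0 < r) (ha : 0 < a)
    (har : 2 * (2 * m : ℝ) ≤ (r : ℝ) ^ 2 / (2 * a)) :
    ff (m + n) ≤ ff m + ff n + 1 + 4 * r + (2 * m) * (2 / r) + (2 * m) / (2 * a) := by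
  have h0 : 2 * m + 2 * n = 2 * (m + n) := by ring
  have h1 := fE_trans (finSumFinEquiv.trans (finCongr h0))
    (fun x : Fin (2 * m) ⊕ Fin (2 * n) → Bool => ch (2 * m) (x ∘ Sum.inl) + ch (2 * n) (x ∘ Sum.inr))
    (ch (2 * (m + n))) 1 (m + n) (ch_join' (2 * m) (2 * n) _ (by omega) (by omega) h0)
  have h2 := fE_sub (ch (2 * m)) (ch (2 * n)) m n (Fintype.card_fin _) (Fintype.card_fin _) r a hr ha (by
    rw [Fintype.card_fin]; push_cast; exact har)
  rw [Fintype.card_fin] at h2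
  push_cast at h1 h2
  unfold ff
  linarith

/-- the error function -/
noncomputable def pp (t : ℕ) : ℝ := ((2 * t : ℝ)) ^ (3 / 4 : ℝ)

theorem pp_nonneg (t : ℕ) : 0 ≤ pp t := Real.rpow_nonneg (by positivity) _

theorem ff_sub' (m n : ℕ) (hm : 0 < m) (hn : 0 < n) : ff (m + n) ≤ ff m + ff n + 15 * pp m := by
  set q : ℝ := (2 * m : ℝ) ^ (1 / 4 : ℝ) with hq
  have hm' : (1 : ℝ) ≤ m := by exact_mod_cast hm
  have h2m : (0 : ℝ) ≤ 2 * m := by positivity
  have hq1 : 1 ≤ q := Real.one_le_rpow (by linarith) (by norm_num)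
  have hq4 : q ^ 4 = 2 * m := by
    rw [hq, ← Real.rpow_natCast, ← Real.rpow_mul h2m]
    norm_num
  have hq3 : q ^ 3 = pp m := by
    rw [hq, ← Real.rpow_natCast, ← Real.rpow_mul h2m]
    unfold pp
    norm_num
  have hq0 : 0 < q := by linarith
  have hr1 : 2 * q ^ 3 ≤ (⌈2 * q ^ 3⌉₊ : ℝ) := Nat.le_ceil _
  have hr2 : (⌈2 * q ^ 3⌉₊ : ℝ) < 2 * q ^ 3 + 1 := Nat.ceil_lt_add_one (by positivity)
  have hr0 : 0 < ⌈2 * q ^ 3⌉₊ := Nat.ceil_pos.mpr (by positivity)
  have h1 := ff_sub m n hm hn ⌈2 * q ^ 3⌉₊ (q ^ 2) hr0 (by positivity) (by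
    rw [le_div_iff₀ (by positivity), ← hq4]
    have : (2 * q ^ 3) ^ 2 ≤ (⌈2 * q ^ 3⌉₊ : ℝ) ^ 2 := pow_le_pow_left₀ (by positivity) hr1 2
    nlinarith)
  rw [← hq3]
  have h2 : (2 * m : ℝ) * (2 / ⌈2 * q ^ 3⌉₊) ≤ q := by
    rw [← hq4, mul_div_assoc', div_le_iff₀ (by linarith [show 0 < q ^ 3 by positivity])]
    have : q * (2 * q ^ 3) ≤ q * ⌈2 * q ^ 3⌉₊ := mul_le_mul_of_nonneg_left hr1 hq0.le
    nlinarith
  have h3 : (2 * m : ℝ) / (2 * q ^ 2) = q ^ 2 / 2 := by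
    rw [← hq4]
    field_simp
  rw [h3] at h1
  have h4 : q ≤ q ^ 3 := by nlinarith [sq_nonneg (q - 1), mul_pos hq0 hq0]
  have h5 : q ^ 2 ≤ q ^ 3 := by nlinarith [mul_pos hq0 hq0]
  have h6 : 1 ≤ q ^ 3 := one_le_pow₀ hq1
  linarith

theorem pp_add (m n : ℕ) (hm : 0 < m) (hmn : m ≤ n) : pp (m + n) ≤ pp n + (3 / 4) * pp m := by
  have hm' : (0 : ℝ) < 2 * m := by positivity
  have hn : 0 < n := by omega
  have hn' : (0 : ℝ) < 2 * n := by positivity
  have hle : (2 * m : ℝ) ≤ 2 * n := by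
    have : (m : ℝ) ≤ n := by exact_mod_cast hmn
    linarith
  have h1 : (2 * ((m + n : ℕ) : ℝ)) = (2 * n) * (1 + (2 * m) / (2 * n)) := by
    push_cast
    field_simp
    ring
  unfold pp
  rw [h1, Real.mul_rpow hn'.le (by positivity)]
  have h20 : 0 ≤ (2 * m : ℝ) / (2 * n) := by positivity
  have h2 : (1 + (2 * m : ℝ) / (2 * n)) ^ (3 / 4 : ℝ) ≤ 1 + (3 / 4) * ((2 * m) / (2 * n)) :=
    rpow_one_add_le_one_add_mul_self (by linarith) (by norm_num) (by norm_num)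
  have h3 : (2 * n : ℝ) ^ (3 / 4 : ℝ) * ((2 * m) / (2 * n)) ≤ (2 * m : ℝ) ^ (3 / 4 : ℝ) := by
    have e1 : (2 * n : ℝ) = (2 * n : ℝ) ^ (3 / 4 : ℝ) * (2 * n : ℝ) ^ (1 / 4 : ℝ) := by
      rw [← Real.rpow_add hn']; norm_num
    have e2 : (2 * m : ℝ) = (2 * m : ℝ) ^ (3 / 4 : ℝ) * (2 * m : ℝ) ^ (1 / 4 : ℝ) := by
      rw [← Real.rpow_add hm']; norm_num
    have e3 : (2 * m : ℝ) ^ (1 / 4 : ℝ) ≤ (2 * n : ℝ) ^ (1 / 4 : ℝ) := Real.rpow_le_rpow hm'.le hle (by norm_num)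
    have p1 : 0 < (2 * n : ℝ) ^ (3 / 4 : ℝ) := Real.rpow_pos_of_pos hn' _
    have p2 : 0 < (2 * n : ℝ) ^ (1 / 4 : ℝ) := Real.rpow_pos_of_pos hn' _
    have p3 : 0 < (2 * m : ℝ) ^ (3 / 4 : ℝ) := Real.rpow_pos_of_pos hm' _
    rw [mul_div_assoc', div_le_iff₀ hn']
    calc (2 * n : ℝ) ^ (3 / 4 : ℝ) * (2 * m) = (2 * n : ℝ) ^ (3 / 4 : ℝ) * ((2 * m : ℝ) ^ (3 / 4 : ℝ) * (2 * m : ℝ) ^ (1 / 4 : ℝ)) := by
          rw [← e2]
      _ ≤ (2 * n : ℝ) ^ (3 / 4 : ℝ) * ((2 * m : ℝ) ^ (3 / 4 : ℝ) * (2 * n : ℝ) ^ (1 / 4 : ℝ)) := by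
          apply mul_le_mul_of_nonneg_left _ p1.le
          exact mul_le_mul_of_nonneg_left e3 p3.le
      _ = (2 * m : ℝ) ^ (3 / 4 : ℝ) * ((2 * n : ℝ) ^ (3 / 4 : ℝ) * (2 * n : ℝ) ^ (1 / 4 : ℝ)) := by ring
      _ = (2 * m : ℝ) ^ (3 / 4 : ℝ) * (2 * n) := by rw [← e1]
  have p1 : 0 < (2 * n : ℝ) ^ (3 / 4 : ℝ) := Real.rpow_pos_of_pos hn' _
  calc (2 * n : ℝ) ^ (3 / 4 : ℝ) * (1 + (2 * m : ℝ) / (2 * n)) ^ (3 / 4 : ℝ) ≤
      (2 * n : ℝ) ^ (3 / 4 : ℝ) * (1 + (3 / 4) * ((2 * m) / (2 * n))) := mul_le_mul_of_nonneg_left h2 p1.le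
    _ = (2 * n : ℝ) ^ (3 / 4 : ℝ) + (3 / 4) * ((2 * n : ℝ) ^ (3 / 4 : ℝ) * ((2 * m) / (2 * n))) := by ring
    _ ≤ _ := by linarith

/-- the corrected mean -/
noncomputable def gg (t : ℕ) : ℝ := ff t + 60 * pp t

theorem gg_nonneg (t : ℕ) : 0 ≤ gg t := by
  have := ff_nonneg t
  have := pp_nonneg t
  unfold gg
  linarith

theorem gg_sub_aux (m n : ℕ) (hmn : m ≤ n) : gg (m + n) ≤ gg m + gg n := by
  rcases Nat.eq_zero_or_pos m with rfl | hm
  · rw [Nat.zero_add]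
    have := gg_nonneg 0
    linarith
  · have h1 := ff_sub' m n hm (by omega)
    have h2 := pp_add m n hm hmn
    unfold gg
    linarith

theorem gg_sub : Subadditive gg := by
  intro m n
  rcases le_total m n with h | h
  · exact gg_sub_aux m n h
  · rw [add_comm m n, add_comm (gg m)]
    exact gg_sub_aux n m h

theorem pp_lim : Tendsto (fun n : ℕ => pp n / n) atTop (𝓝 0) := by
  have h1 : Tendsto (fun n : ℕ => 2 * ((2 * n : ℝ)) ^ (-(1 / 4 : ℝ))) atTop (𝓝 (2 * 0)) := by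
    apply Tendsto.const_mul
    apply (tendsto_rpow_neg_atTop (by norm_num : (0 : ℝ) < 1 / 4)).comp
    exact tendsto_natCast_atTop_atTop.const_mul_atTop (by norm_num)
  rw [mul_zero] at h1
  refine h1.congr' ?_
  filter_upwards [eventually_gt_atTop 0] with n hn
  have hn' : (0 : ℝ) < 2 * n := by positivity
  unfold pp
  have e1 : (2 * n : ℝ) ^ (3 / 4 : ℝ) = (2 * n : ℝ) ^ (-(1 / 4 : ℝ)) * (2 * n) := by
    conv_rhs => rw [← Real.rpow_one (2 * n : ℝ), ← Real.rpow_mul hn'.le, ← Real.rpow_add hn']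
    norm_num
  rw [e1]
  have : (n : ℝ) ≠ 0 := by positivity
  field_simp

theorem ff_lim : ∃ L : ℝ, Tendsto (fun n : ℕ => ff n / n) atTop (𝓝 L) := by
  have h1 := gg_sub.tendsto_lim ⟨0, by
    rintro _ ⟨n, rfl⟩
    exact div_nonneg (gg_nonneg n) (Nat.cast_nonneg n)⟩
  refine ⟨gg_sub.lim - 60 * 0, ?_⟩
  refine (h1.sub (pp_lim.const_mul 60)).congr fun n => ?_
  unfold gg
  ring

end Pool.Agent.R928.NK
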