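import Pool.Agent.R928.NK.Sub

/-! Variance of functions of a uniform permutation. -/

set_option autoImplicit false
set_option linter.all false

namespace Pool.Agent.R928.NK

open Finset Filter Topology

theorem sum_sq {α : Type} [Fintype α] [Nonempty α] (φ : α → ℝ) (c : ℝ) :
    ∑ a, (φ a - c) ^ 2 = ∑ a, (φ a - avg φ) ^ 2 + Fintype.card α * (avg φ - c) ^ 2 := by
  have hN : (Fintype.card α : ℝ) ≠ 0 := by exact_mod_cast Fintype.card_ne_zero
  have h1 : ∑ a, φ a = Fintype.card α * avg φ := by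
    unfold avg
    field_simp
  have h2 : ∀ a, (φ a - c) ^ 2 = (φ a - avg φ) ^ 2 + (2 * (avg φ - c) * φ a + (c ^ 2 - (avg φ) ^ 2)) := by
    intro a; ring
  rw [Finset.sum_congr rfl fun a _ => h2 a, Finset.sum_add_distrib, Finset.sum_add_distrib, ← Finset.mul_sum, h1,
    Finset.sum_const, nsmul_eq_mul, Finset.card_univ]
  ring

theorem dec_swap {n : ℕ} (p : Fin (n + 1)) (i j : Fin n) (e : Equiv.Perm (Fin n)) :
    ∃ a b, Equiv.Perm.decomposeFin.symm (p, Equiv.swap i j * e) =
      Equiv.swap a b * Equiv.Perm.decomposeFin.symm (p, e) := by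
  have hinj : Function.Injective fun k : Fin n => Equiv.swap 0 p k.succ := by
    intro a b hab
    have := (Equiv.swap 0 p).injective hab
    exact Fin.succ_injective _ this
  refine ⟨Equiv.swap 0 p i.succ, Equiv.swap 0 p j.succ, ?_⟩
  have hp : ∀ k : Fin n, p ≠ Equiv.swap 0 p k.succ := by
    intro k hk
    have : Equiv.swap 0 p 0 = Equiv.swap 0 p k.succ := by rw [Equiv.swap_apply_left]; exact hk
    exact (Fin.succ_ne_zero k) ((Equiv.swap 0 p).injective this).symm
  ext x
  refine Fin.cases ?_ ?_ x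
  · rw [Equiv.Perm.mul_apply, Equiv.Perm.decomposeFin_symm_apply_zero, Equiv.Perm.decomposeFin_symm_apply_zero,
      Equiv.swap_apply_of_ne_of_ne (hp i) (hp j)]
  · intro k
    rw [Equiv.Perm.mul_apply, Equiv.Perm.decomposeFin_symm_apply_succ, Equiv.Perm.decomposeFin_symm_apply_succ]
    have := hinj.swap_apply i j (e k)
    rw [this]
    rfl

theorem dec_zero {n : ℕ} (p : Fin (n + 1)) (e : Equiv.Perm (Fin n)) :
    Equiv.Perm.decomposeFin.symm (p, e) = Equiv.swap 0 p * Equiv.Perm.decomposeFin.symm (0, e) := by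
  ext x
  refine Fin.cases ?_ ?_ x
  · rw [Equiv.Perm.mul_apply, Equiv.Perm.decomposeFin_symm_apply_zero, Equiv.Perm.decomposeFin_symm_apply_zero,
      Equiv.swap_apply_left]
  · intro k
    rw [Equiv.Perm.mul_apply, Equiv.Perm.decomposeFin_symm_apply_succ, Equiv.Perm.decomposeFin_symm_apply_succ,
      Equiv.swap_self, Equiv.refl_apply]

theorem var_bound (K : ℝ) (hK : 0 ≤ K) : ∀ (n : ℕ) (φ : Equiv.Perm (Fin n) → ℝ),
    (∀ i j s, |φ (Equiv.swap i j * s) - φ s| ≤ K) →
    ∑ s, (φ s - avg φ) ^ 2 ≤ K ^ 2 * n * n.factorial := by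
  intro n
  induction n with
  | zero =>
    intro φ _
    have h0 : ∀ s : Equiv.Perm (Fin 0), φ s = φ 1 := fun s => by rw [Subsingleton.elim s 1]
    have h1 : avg φ = φ 1 := by
      have : φ = fun _ => φ 1 := funext h0
      rw [this, avg_const]
    rw [h1]
    simp [h0]
  | succ n ih =>
    intro φ hφ
    set ψ : Fin (n + 1) → Equiv.Perm (Fin n) → ℝ := fun p e => φ (Equiv.Perm.decomposeFin.symm (p, e)) with hψ
    have h1 : ∀ p, ∑ e, (ψ p e - avg (ψ p)) ^ 2 ≤ K ^ 2 * n * n.factorial := by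
      intro p
      apply ih
      intro i j e
      obtain ⟨a, b, hab⟩ := dec_swap p i j e
      simp only [hψ]
      rw [hab]
      exact hφ _ _ _
    have h2 : ∀ p, |avg (ψ p) - avg (ψ 0)| ≤ K := by
      intro p
      rw [← avg_sub, abs_le]
      have hb : ∀ e, |ψ p e - ψ 0 e| ≤ K := by
        intro e
        simp only [hψ]
        rw [dec_zero p e]
        exact hφ _ _ _
      constructor
      · rw [← avg_const (α := Equiv.Perm (Fin n)) (-K)]
        exact avg_mono fun e => (abs_le.mp (hb e)).1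
      · exact avg_le fun e => (abs_le.mp (hb e)).2
    have h3 := sum_sq φ (avg (ψ 0))
    have h4 : ∑ s, (φ s - avg φ) ^ 2 ≤ ∑ s, (φ s - avg (ψ 0)) ^ 2 := by
      rw [h3]
      have : 0 ≤ (Fintype.card (Equiv.Perm (Fin (n + 1))) : ℝ) * (avg φ - avg (ψ 0)) ^ 2 := by positivity
      linarith
    refine h4.trans ?_
    rw [← Equiv.sum_comp Equiv.Perm.decomposeFin.symm, Fintype.sum_prod_type]
    have h5 : ∀ p, ∑ e, (ψ p e - avg (ψ 0)) ^ 2 ≤ K ^ 2 * n * n.factorial + n.factorial * K ^ 2 := by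
      intro p
      rw [sum_sq (ψ p) (avg (ψ 0))]
      have h6 : (avg (ψ p) - avg (ψ 0)) ^ 2 ≤ K ^ 2 := by
        rw [← sq_abs]
        exact pow_le_pow_left₀ (abs_nonneg _) (h2 p) 2
      have h7 : (Fintype.card (Equiv.Perm (Fin n)) : ℝ) = n.factorial := by
        rw [Fintype.card_perm, Fintype.card_fin]
      rw [h7]
      have h8 : (n.factorial : ℝ) * (avg (ψ p) - avg (ψ 0)) ^ 2 ≤ n.factorial * K ^ 2 :=
        mul_le_mul_of_nonneg_left h6 (Nat.cast_nonneg _)
      linarith [h1 p]
    have h9 : ∑ p : Fin (n + 1), ∑ e, (ψ p e - avg (ψ 0)) ^ 2 ≤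
        ∑ p : Fin (n + 1), (K ^ 2 * n * n.factorial + n.factorial * K ^ 2) := Finset.sum_le_sum fun p _ => h5 p
    refine h9.trans (le_of_eq ?_)
    rw [Finset.sum_const, Finset.card_univ, Fintype.card_fin, nsmul_eq_mul, Nat.factorial_succ]
    push_cast
    ring

/-- the soft optimum of a matching -/
noncomputable def FF {t : ℕ} (σ : Fin t × Bool ≃ Fin (2 * t)) : ℝ := (mE (fun y => ch (2 * t) y + pe σ y) : ℝ)

theorem FF_swap_aux {t : ℕ} (σ : Fin t × Bool ≃ Fin (2 * t)) (i j : Fin (2 * t)) :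
    FF (σ.trans (Equiv.swap i j)) ≤ FF σ + 4 := by
  unfold FF
  obtain ⟨x, hx⟩ := exists_mE (fun y => ch (2 * t) y + pe σ y)
  have h1 : mE (fun y => ch (2 * t) y + pe (σ.trans (Equiv.swap i j)) y) ≤ mE (fun y => ch (2 * t) y + pe σ y) + 4 := by
    refine (mE_le _ (x ∘ Equiv.swap i j)).trans ?_
    rw [← hx]
    have h2 := ch_flip x (x ∘ Equiv.swap i j) {i, j} (by
      intro k hk
      rw [Finset.mem_insert, Finset.mem_singleton, not_or] at hk
      rw [Function.comp_apply, Equiv.swap_apply_of_ne_of_ne hk.1 hk.2])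
    have h3 : ({i, j} : Finset (Fin (2 * t))).card ≤ 2 := Finset.card_le_two
    have h4 : pe (σ.trans (Equiv.swap i j)) (x ∘ Equiv.swap i j) = pe σ x := by
      unfold pe
      have : ∀ p, (x ∘ Equiv.swap i j) ((σ.trans (Equiv.swap i j)) p) = x (σ p) := by
        intro p
        simp
      simp only [this]
    simp only [h4]
    omega
  exact_mod_cast h1

theorem FF_swap {t : ℕ} (σ : Fin t × Bool ≃ Fin (2 * t)) (i j : Fin (2 * t)) :
    |FF (σ.trans (Equiv.swap i j)) - FF σ| ≤ 4 := by
  have h1 := FF_swap_aux σ i j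
  have h2 := FF_swap_aux (σ.trans (Equiv.swap i j)) i j
  have h3 : (σ.trans (Equiv.swap i j)).trans (Equiv.swap i j) = σ := by
    ext p
    simp
  rw [h3] at h2
  rw [abs_le]
  constructor <;> linarith

theorem card_match (t : ℕ) : Fintype.card (Fin t × Bool) = Fintype.card (Fin (2 * t)) := by
  rw [Fintype.card_prod, Fintype.card_fin, Fintype.card_bool, Fintype.card_fin]; ring

instance instNeMatch (t : ℕ) : Nonempty (Fin t × Bool ≃ Fin (2 * t)) := ⟨Fintype.equivOfCardEq (card_match t)⟩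

theorem FF_var (t : ℕ) : ∑ σ : Fin t × Bool ≃ Fin (2 * t), (FF σ - ff t) ^ 2 ≤
    16 * (2 * t) * Fintype.card (Fin t × Bool ≃ Fin (2 * t)) := by
  let σ0 : Fin t × Bool ≃ Fin (2 * t) := Fintype.equivOfCardEq (card_match t)
  let e : Equiv.Perm (Fin (2 * t)) ≃ (Fin t × Bool ≃ Fin (2 * t)) :=
    { toFun := fun s => σ0.trans s
      invFun := fun τ => σ0.symm.trans τ
      left_inv := by intro s; ext a; simp
      right_inv := by intro τ; ext a; simp }
  have h1 := var_bound 4 (by norm_num) (2 * t) (fun s => FF (e s)) (by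
    intro i j s
    have : e (Equiv.swap i j * s) = (e s).trans (Equiv.swap i j) := by
      ext p; rfl
    simp only [this]
    exact FF_swap _ _ _)
  have h2 : avg (fun s => FF (e s)) = ff t := avg_equiv e FF
  rw [h2] at h1
  rw [← Equiv.sum_comp e]
  refine h1.trans (le_of_eq ?_)
  rw [← Fintype.card_congr e, Fintype.card_perm, Fintype.card_fin]
  push_cast
  ring

/-- The fraction of matchings whose optimum is far from the limit tends to zero. -/
theorem FF_conc (L : ℝ) (hL : Tendsto (fun n : ℕ => ff n / n) atTop (𝓝 L)) (ε : ℝ) (hε : 0 < ε) :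
    Tendsto (fun t : ℕ => (Nat.card {σ : Fin t × Bool ≃ Fin (2 * t) // |FF σ / t - L| < ε} : ℝ) /
      Nat.card (Fin t × Bool ≃ Fin (2 * t))) atTop (𝓝 1) := by
  classical
  have hbound : ∀ᶠ t : ℕ in atTop, 1 - (128 / ε ^ 2) * (1 / (t : ℝ)) ≤
      (Nat.card {σ : Fin t × Bool ≃ Fin (2 * t) // |FF σ / t - L| < ε} : ℝ) / Nat.card (Fin t × Bool ≃ Fin (2 * t)) := by
    have h1 := (Metric.tendsto_nhds.mp hL) (ε / 2) (by positivity)
    filter_upwards [h1, eventually_gt_atTop 0] with t ht ht0
    have ht' : (0 : ℝ) < t := by exact_mod_cast ht0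
    rw [Real.dist_eq] at ht
    set N : ℝ := (Nat.card (Fin t × Bool ≃ Fin (2 * t)) : ℝ) with hN
    have hNpos : 0 < N := by
      rw [hN]
      exact_mod_cast Nat.card_pos
    set bad : Finset (Fin t × Bool ≃ Fin (2 * t)) := Finset.univ.filter fun σ => ¬ |FF σ / t - L| < ε with hbad
    set good : Finset (Fin t × Bool ≃ Fin (2 * t)) := Finset.univ.filter fun σ => |FF σ / t - L| < ε with hgood
    have hgc : (Nat.card {σ : Fin t × Bool ≃ Fin (2 * t) // |FF σ / t - L| < ε} : ℝ) = good.card := by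
      rw [Nat.card_eq_fintype_card, Fintype.card_subtype]
    have hsum : (good.card : ℝ) + bad.card = N := by
      rw [hN, Nat.card_eq_fintype_card, ← Finset.card_univ,
        ← Finset.card_filter_add_card_filter_not (s := (Finset.univ : Finset (Fin t × Bool ≃ Fin (2 * t))))
          (fun σ => |FF σ / t - L| < ε)]
      push_cast
      rfl
    have hb : (bad.card : ℝ) * (ε / 2 * t) ^ 2 ≤ 16 * (2 * t) * N := by
      have hv := FF_var t
      rw [← Nat.card_eq_fintype_card, ← hN] at hv
      calc (bad.card : ℝ) * (ε / 2 * t) ^ 2 = ∑ σ ∈ bad, (ε / 2 * t) ^ 2 := by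
            rw [Finset.sum_const, nsmul_eq_mul]
        _ ≤ ∑ σ ∈ bad, (FF σ - ff t) ^ 2 := by
            apply Finset.sum_le_sum
            intro σ hσ
            rw [hbad, Finset.mem_filter] at hσ
            have h3 := not_lt.mp hσ.2
            have h4 : ε / 2 * t ≤ |FF σ - ff t| := by
              have h5 : FF σ / t - L = (FF σ - ff t) / t + (ff t / t - L) := by
                field_simp
                ring
              rw [h5] at h3
              have h6 := abs_add_le ((FF σ - ff t) / t) (ff t / t - L)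
              have h7 : ε / 2 ≤ |(FF σ - ff t) / t| := by linarith
              rw [abs_div, abs_of_pos ht', le_div_iff₀ ht'] at h7
              exact h7
            rw [← sq_abs (FF σ - ff t)]
            exact pow_le_pow_left₀ (by positivity) h4 2
        _ ≤ ∑ σ, (FF σ - ff t) ^ 2 := by
            apply Finset.sum_le_sum_of_subset_of_nonneg (Finset.subset_univ _)
            intro i _ _
            exact sq_nonneg _
        _ ≤ _ := hv
    rw [hgc, le_div_iff₀ hNpos]
    have hb2 : (bad.card : ℝ) ≤ (128 / ε ^ 2) * (1 / t) * N := by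
      have h8 : 0 < (ε / 2 * t) ^ 2 := by positivity
      rw [← le_div_iff₀ h8] at hb
      refine hb.trans (le_of_eq ?_)
      field_simp
      ring
    nlinarith
  have hlow : Tendsto (fun t : ℕ => 1 - (128 / ε ^ 2) * (1 / (t : ℝ))) atTop (𝓝 1) := by
    have := (tendsto_one_div_atTop_nhds_zero_nat (𝕜 := ℝ)).const_mul (128 / ε ^ 2)
    have h2 := this.const_sub 1
    rw [mul_zero, sub_zero] at h2
    exact h2
  refine tendsto_of_tendsto_of_tendsto_of_le_of_le' hlow tendsto_const_nhds hbound ?_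
  refine Eventually.of_forall fun t => ?_
  apply div_le_one_of_le₀ _ (Nat.cast_nonneg _)
  rw [Nat.card_eq_fintype_card, Nat.card_eq_fintype_card]
  exact_mod_cast Fintype.card_subtype_le _

end Pool.Agent.R928.NK
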